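import Pool.Agent.Helper18.BI.S5.M_FIN6

/-!
# Project BI, stage 5: the final theorem in the vocabulary of the hand-ins
-/

set_option autoImplicit false
set_option linter.unusedSectionVars false

open scoped Manifold ContDiff Topology ComplexConjugate unitInterval
open Set Filter Pool.Agent.Helper65.Barb Pool.Agent.Helper18.BI
open Pool.Agent.Helper27.BI (swp StR2sw)
open Pool.Agent.Helper34.BI (swp_swp swp_mem_SP)
open Pool.Agent.Helper70.BI (I4 IsW StEI StX2c)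
open Pool.Agent.Helper70.BI.Fin2 (SP_sub_NB)
open Pool.Agent.Helper18.BI.H (IsW4)
open Pool.Agent.Helper70.Fin (Emb coreSphere)
open Pool.Agent.Helper18.FinR (Pi2 FreeClass parallel)
open Pool.Agent.Helper18.FinS (Off fixedCuff IsBarbell IsBase IsClass gen Isotopic)
open Pool.Agent.Helper18.BI.R
open Pool.Agent.Helper18.BI.R.FIN4
open Pool.Agent.Helper18.BI.R.FIN5

namespace Pool.Agent.Helper18.BI.S5

/-- **THE MAIN THEOREM OF STAGE 5.** -/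
def StFinal8 : Prop :=
  ∃ (W : S4 → S4) (B₀ : Emb), FinS.IsImplantation B₀ W ∧ FinS.BoundsDisjointBalls B₀ ∧
    Isotopic (fun x => W (W x)) (fun x => x) ∧ FinS.IsCentral W ∧
    (∀ (B : Emb) (y₀ : Off B), IsBarbell B → IsBase B y₀ →
      (∀ B' : Emb, IsBarbell B' → FinS.SameFixed B B' → ∃ z, IsClass B y₀ B' z) ∧
      ∃ Φ : Pi2 (fixedCuff B) y₀ → S4 → S4,
        (∀ z ∈ gen (FinS.MovedClasses B y₀), ∀ z' ∈ gen (FinS.MovedClasses B y₀),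
          FinS.UpTo W (Φ (z * z')) (fun x => Φ z (Φ z' x))) ∧
        (∀ (B' : Emb) (φ : S4 → S4) (z : Pi2 (fixedCuff B) y₀), FinS.IsImplantation B' φ →
          FinS.SameFixed B B' → IsClass B y₀ B' z → FinS.UpTo W φ (Φ z)) ∧
        ∀ z ∈ gen (FinS.MovedClasses B y₀),
          z ∈ gen (FinT.ElementaryClasses B y₀ ∪ FinT.Drift B y₀) →
          FinS.UpTo W (Φ z) (fun x => x)) ∧
    (∀ (B : Emb) (y₀ : Off B) (B₁ B₂ : Emb) (φ₁ φ₂ : S4 → S4) (z₁ z₂ : Pi2 (fixedCuff B) y₀),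
      IsBarbell B → IsBase B y₀ → FinS.IsImplantation B₁ φ₁ → FinS.IsImplantation B₂ φ₂ →
      FinS.SameFixed B B₁ → FinS.SameFixed B B₂ → IsClass B y₀ B₁ z₁ → IsClass B y₀ B₂ z₂ →
      z₁ * z₂⁻¹ ∈ gen (FinT.ElementaryClasses B y₀ ∪ FinT.Drift B y₀) → FinS.UpTo W φ₁ φ₂) ∧
    ∀ (B : Emb) (φ : S4 → S4), FinT.Elementary B → FinS.IsImplantation B φ →
      FinS.UpTo W φ (fun x => x)

namespace FIN8

theorem impl_iff (B : Emb) (φ : S4 → S4) :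
    FinS.IsImplantation B φ ↔ Helper70.Fin.IsImplantation B φ := by
  constructor
  · rintro ⟨hB, β, hβ, h1, h2⟩
    refine ⟨hB, β, hβ, ?_⟩
    funext y
    unfold implantation
    split_ifs with hy
    · obtain ⟨p, hp, rfl⟩ := hy
      have hs : B.toPartialEquiv.symm (B p) = p := B.toPartialEquiv.left_inv (hB hp)
      rw [hs]
      exact h1 p hp
    · exact h2 y hy
  · rintro ⟨hB, β, hβ, rfl⟩
    refine ⟨hB, β, hβ, ?_, ?_⟩
    · intro p hp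
      have hs : B.toPartialEquiv.symm (B p) = p := B.toPartialEquiv.left_inv (hB hp)
      show implantation B β (B p) = B (β p)
      unfold implantation
      rw [if_pos ⟨p, hp, rfl⟩, hs]
    · intro y hy
      unfold implantation
      exact if_neg hy

section
variable (hLIP : StLIP) (hT2 : StT2) (hT4 : StT4) (hCI : StCI) {W : S4 → S4} (hW : IsW4 W)
include hLIP hT2 hT4 hCI hW

/-- **elementary barbells** -/
theorem elem (hRel6 : RelS6 W) (hNul : NulS W) (hPAR : StPARS W) (hEXC : StEXC) (hUNK : StUNK)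
    (hsw : StR2sw) (B : Emb) (hB : FinT.Elementary B) :
    NB ⊆ B.source ∧ ∀ φ, Thin (𝓡 4) B φ → RW4 W φ (fun x => x) := by
  have hRel := RELS6.rels_of_rels6 hT2 hCI hW hRel6
  obtain ⟨cid, cs, cself, ct, cc, cinv, cex, cconj, ciso, -⟩ := hCI _ _ (𝓡 4) S4
  have tself := (hT2 _ _ (𝓡 4) S4).2.2.2.2.2.2
  induction hB with
  | unknotted B hB hu =>
    have hB : NB ⊆ B.source := hB
    refine ⟨hB, fun φ hφ => ?_⟩
    obtain ⟨δ, e1, e2⟩ := hu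
    have e1 : Pool.Agent.Helper70.Fin.flatBall 0 ⊆ δ.source := e1
    have e2 : ∀ p ∈ coreSphere 0, δ p = B p := e2
    have hflat : Pool.Agent.Helper70.Fin.flatBall 0 = flat 0 := by
      have e : (1 / 5 : ℝ) ^ 2 = 1 / 25 := by norm_num
      rw [Pool.Agent.Helper70.Fin.flatBall, flat, e]
    rw [hflat] at e1
    rw [RELS.coreSphere_eq] at e2
    obtain ⟨h, y, f1, f2, f3, f4⟩ := hUNK B hB ⟨δ, e1, e2⟩
    exact hNul B φ h y 0 1 hB (Or.inl ⟨rfl, rfl⟩) hφ f1 f2 f3 f4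
  | exchange B B' _ hB' hex ih =>
    obtain ⟨U, hU, hsU, hEq⟩ := hex
    have hB' : NB ⊆ B'.source := hB'
    obtain ⟨hB, ih⟩ := ih
    refine ⟨hB', fun ψ hψ => ?_⟩
    obtain ⟨e1, e2⟩ := hT4 B barMap hB isBarbellMap_barMap
    obtain ⟨f1, f2⟩ := hT4 B' barMap hB' isBarbellMap_barMap
    obtain ⟨φ', hφ', i1, i2⟩ := cex _ (tself _ _ e2)
    have hG : Thin (𝓡 4) (fun p => B (swp p)) φ' := (hsw _ _ (𝓡 4) S4 B _ φ' e1 i1 i2).1 e2
    have hGE : EmbOn (𝓡 4) (fun p => B (swp p)) SP := embOn_swpS e1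
    have hφ't : RW4 W φ' (fun x => x) := inv_triv hT2 hT4 hCI hW hφ' i2 (ih _ e2)
    have hy : B' (1 / 2, (1 / 2, 0)) ∉ B' '' coreSphere 1 := by
      rintro ⟨q, hq, he⟩
      rw [RELS.coreSphere_eq] at hq
      have hm : ((1 / 2, (1 / 2, 0)) : R4) ∈ SP := Or.inr ⟨rfl, by norm_num, by norm_num, rfl⟩
      have h1 := B'.toPartialEquiv.injOn (hB' (SP_sub_NB (RELS.sph1_sub hq)))
        (hB' (SP_sub_NB hm)) he
      rw [h1] at hq
      have h2 : rsq 1 (1 / 2, (1 / 2, (0 : ℂ))) = 1 / 25 := hq.2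
      simp [rsq, nsq] at h2
      norm_num at h2
    obtain ⟨z, hz⟩ := hEXC B' B' (B' '' coreSphere 1) ⟨_, hy⟩ hB' hB'
      ⟨univ, isOpen_univ, subset_univ _, fun _ _ => rfl⟩ rfl rfl
    obtain ⟨Φ, hs, hmul, hrep⟩ := exists_hom hT2 hCI hW hRel f1
      (by rw [RELS.coreSphere_eq]) (y₀ := ⟨B' (1 / 2, (1 / 2, 0)), hy⟩) rfl
    rw [RELS.coreSphere_eq, RELS.coreSphere_eq] at hsU
    have h1 : RW4 W ψ (Φ z) := hrep B' ψ z f1 ⟨univ, isOpen_univ, subset_univ _, fun _ _ => rfl⟩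
      hψ hz
    have hz' : FreeClass (B' '' coreSphere 1) ⟨B' (1 / 2, (1 / 2, 0)), hy⟩
        (fun p => B (swp p)) z := by
      obtain ⟨f, h, g1, g2, g3, g4, g5⟩ := hz
      refine ⟨f, h, g1, g2, g3, fun p hp => ?_, g5⟩
      rw [g4 p hp]
      rw [RELS.coreSphere_eq] at hp
      exact hEq (hsU (Or.inl hp))
    have h2 : RW4 W φ' (Φ z) := hrep _ φ' z hGE
      ⟨U, hU, fun p hp => hsU (Or.inr hp), fun p hp => hEq hp⟩ hG hz'
    exact r_trans hCI hW cid h1 (r_trans hCI hW cid (r_symm hCI hW (hs z) h2) hφ't)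
  | sum B y₀ n C w z hNB hy _ hsf hfr hz hfB ih =>
    have hNB : NB ⊆ B.source := hNB
    refine ⟨hNB, fun ψ hψ => ?_⟩
    obtain ⟨f1, f2⟩ := hT4 B barMap hNB isBarbellMap_barMap
    obtain ⟨Φ, hs, hmul, hrep, hdr⟩ := FIN6.exists_hom6 hLIP hT2 hCI hW hRel6 f1
      (A := fixedCuff B) (by
        show B '' coreSphere 1 = B '' sph 1
        rw [RELS.coreSphere_eq]) (y₀ := y₀) hy
    have hgen : ∀ v ∈ Set.range w ∪ {v | FreeClass (fixedCuff B) y₀ (parallel B) v},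
        ∃ (G : R4 → S4) (φ : S4 → S4), EmbOn (𝓡 4) G SP ∧
          (∃ U : Set R4, IsOpen U ∧ sph 1 ⊆ U ∧ EqOn B G U) ∧
          Thin (𝓡 4) G φ ∧ FreeClass (fixedCuff B) y₀ G v ∧ RW4 W φ (fun x => x) := by
      rintro v (⟨i, rfl⟩ | hv)
      · obtain ⟨e1, e2⟩ := hT4 (C i) barMap (ih i).1 isBarbellMap_barMap
        exact ⟨C i, _, e1, same_near (hsf i), e2, hfr i, (ih i).2 _ e2⟩
      · exact par_rep hT2 hT4 hCI hW hPAR B hNB y₀ v hv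
    have hzB : z ∈ RepG B (fixedCuff B) y₀ :=
      rep_of hT2 hCI B y₀ f1 ⟨univ, isOpen_univ, subset_univ _, fun _ _ => rfl⟩ f2 hfB
    have h1 : RW4 W (Φ z) (fun x => x) := by
      refine hdr (Set.range w ∪ {v | FreeClass (fixedCuff B) y₀ (parallel B) v}) ?_ ?_ z
        (Subgroup.subset_closure hzB) hz
      · intro v hv
        obtain ⟨G, φ, g1, g2, g3, g4, -⟩ := hgen v hv
        exact rep_of hT2 hCI B y₀ g1 g2 g3 g4
      · intro v hv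
        obtain ⟨G, φ, g1, g2, g3, g4, g5⟩ := hgen v hv
        exact r_trans hCI hW cid (r_symm hCI hW (hs v) (hrep G φ v g1 g2 g3 g4)) g5
    exact r_trans hCI hW cid
      (hrep B ψ z f1 ⟨univ, isOpen_univ, subset_univ _, fun _ _ => rfl⟩ hψ hfB) h1

/-- the homomorphism for a fixed cuff -/
theorem main (hRel6 : RelS6 W) (hNul : NulS W) (hPAR : StPARS W) (hEXC : StEXC) (hUNK : StUNK)
    (hsw : StR2sw) (B : Emb) (y₀ : Off B) (hNB : NB ⊆ B.source) (hy : IsBase B y₀) :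
    (∀ B' : Emb, IsBarbell B' → FinS.SameFixed B B' → ∃ z, IsClass B y₀ B' z) ∧
      ∃ Φ : Pi2 (fixedCuff B) y₀ → S4 → S4, (∀ z, CIsot (𝓡 4) (Φ z) (Φ z)) ∧
        (∀ z ∈ gen (FinS.MovedClasses B y₀), ∀ z' ∈ gen (FinS.MovedClasses B y₀),
          RW4 W (Φ (z * z')) (fun x => Φ z (Φ z' x))) ∧
        (∀ (B' : Emb) (φ : S4 → S4) (z : Pi2 (fixedCuff B) y₀), FinS.IsImplantation B' φ →
          FinS.SameFixed B B' → IsClass B y₀ B' z → CIsot (𝓡 4) φ φ ∧ RW4 W φ (Φ z)) ∧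
        ∀ z ∈ gen (FinS.MovedClasses B y₀),
          z ∈ gen (FinT.ElementaryClasses B y₀ ∪ FinT.Drift B y₀) →
          RW4 W (Φ z) (fun x => x) := by
  obtain ⟨cid, cs, cself, ct, cc, cinv, cex, cconj, ciso, -⟩ := hCI _ _ (𝓡 4) S4
  have tself := (hT2 _ _ (𝓡 4) S4).2.2.2.2.2.2
  have hel := elem hLIP hT2 hT4 hCI hW hRel6 hNul hPAR hEXC hUNK hsw
  have hB : EmbOn (𝓡 4) B SP := (hT4 B barMap hNB isBarbellMap_barMap).1
  obtain ⟨Φ, hs, hmul, hrep, hdr⟩ := FIN6.exists_hom6 hLIP hT2 hCI hW hRel6 hB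
    (A := fixedCuff B) (by
      show B '' coreSphere 1 = B '' sph 1
      rw [RELS.coreSphere_eq]) (y₀ := y₀) hy
  have hsub : FinS.MovedClasses B y₀ ⊆ RepG B (fixedCuff B) y₀ := by
    rintro z (⟨B', hB', hsf, hfr⟩ | hz)
    · obtain ⟨e1, e2⟩ := hT4 B' barMap hB' isBarbellMap_barMap
      exact rep_of hT2 hCI B y₀ e1 (same_near hsf) e2 hfr
    · obtain ⟨G, φ, g1, g2, g3, g4, -⟩ := par_rep hT2 hT4 hCI hW hPAR B hNB y₀ z hz
      exact rep_of hT2 hCI B y₀ g1 g2 g3 g4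
  have hcl := Subgroup.closure_mono hsub
  refine ⟨fun B' hB' hsf => hEXC B B' _ y₀ hNB hB' hsf rfl hy, Φ, hs,
    fun z hz z' hz' => hmul z (hcl hz) z' (hcl hz'), ?_, ?_⟩
  · intro B' φ z hφ hsf hfr
    obtain ⟨hB', β, hβ, rfl⟩ := (impl_iff B' φ).1 hφ
    obtain ⟨e1, e2⟩ := hT4 B' β hB' hβ
    exact ⟨tself _ _ e2, hrep B' _ z e1 (same_near hsf) e2 hfr⟩
  · have htriv : ∀ z ∈ FinT.ElementaryClasses B y₀, ∃ (G : R4 → S4) (φ : S4 → S4),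
        EmbOn (𝓡 4) G SP ∧ (∃ U : Set R4, IsOpen U ∧ sph 1 ⊆ U ∧ EqOn B G U) ∧
        Thin (𝓡 4) G φ ∧ FreeClass (fixedCuff B) y₀ G z ∧ RW4 W φ (fun x => x) := by
      rintro z (⟨B', hE, hsf, hfr⟩ | hz)
      · obtain ⟨hB', h2⟩ := hel B' hE
        obtain ⟨e1, e2⟩ := hT4 B' barMap hB' isBarbellMap_barMap
        exact ⟨B', _, e1, same_near hsf, e2, hfr, h2 _ e2⟩
      · exact par_rep hT2 hT4 hCI hW hPAR B hNB y₀ z hz
    intro z hz hz'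
    refine hdr (FinT.ElementaryClasses B y₀) ?_ ?_ z (hcl hz) hz'
    · intro v hv
      obtain ⟨G, φ, g1, g2, g3, g4, -⟩ := htriv v hv
      exact rep_of hT2 hCI B y₀ g1 g2 g3 g4
    · intro v hv
      obtain ⟨G, φ, g1, g2, g3, g4, g5⟩ := htriv v hv
      exact r_trans hCI hW cid (r_symm hCI hW (hs v) (hrep G φ v g1 g2 g3 g4)) g5

end

end FIN8

open FIN8 in
theorem m_FIN8 (hPARS : ∀ W W', IsW W → IsPush W W' → StPARS W') (hRelS : StRelS6)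
    (hNULS : ∀ W W', IsW W → IsPush W W' → NulS W') (hEXC : StEXC) (hUNK : StUNK)
    (hLIP : StLIP) (hsw : StR2sw) (hT4 : StT4) (hT2 : StT2) (hCI : StCI) {W₀ : R4 → R4}
    (hW₀ : IsW W₀) : StFinal8 := by
  obtain ⟨W, hW, hpush, -, hRel⟩ := hRelS W₀ hW₀
  have hPAR := hPARS W₀ W hW₀ hpush
  have hNul := hNULS W₀ W hW₀ hpush
  obtain ⟨B₀, δ₀, k1, k2, k3, k4⟩ := hW.1
  obtain ⟨cid, cs, cself, ct, cc, cinv, cex, cconj, ciso, -⟩ := hCI _ _ (𝓡 4) S4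
  have hflat : ∀ c, Pool.Agent.Helper70.Fin.flatBall c = flat c := fun c => by
    have e : (1 / 5 : ℝ) ^ 2 = 1 / 25 := by norm_num
    rw [Pool.Agent.Helper70.Fin.flatBall, flat, e]
  have hup : ∀ φ ψ, RW4 W φ ψ → FinS.UpTo W φ ψ := fun φ ψ h => (rw4_iff hCI).1 h
  refine ⟨W, B₀, (impl_iff B₀ W).2 ⟨k1, barMap, isBarbellMap_barMap, k4⟩, ⟨δ₀, ?_, ?_⟩, hW.2.1,
    hW.2.2, ?_, ?_, ?_⟩
  · show Pool.Agent.Helper70.Fin.flatBall 0 ∪ Pool.Agent.Helper70.Fin.flatBall 1 ⊆ δ₀.source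
    rw [hflat, hflat]
    exact k2
  · show ∀ p ∈ coreSphere 0 ∪ coreSphere 1, δ₀ p = B₀ p
    rw [RELS.coreSphere_eq, RELS.coreSphere_eq]
    exact k3
  · intro B y₀ hNB hy
    obtain ⟨h1, Φ, -, h3, h4, h5⟩ :=
      main hLIP hT2 hT4 hCI hW hRel hNul hPAR hEXC hUNK hsw B y₀ hNB hy
    exact ⟨h1, Φ, fun z hz z' hz' => hup _ _ (h3 z hz z' hz'),
      fun B' φ z a b c => hup _ _ (h4 B' φ z a b c).2, fun z hz hz' => hup _ _ (h5 z hz hz')⟩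
  · intro B y₀ B₁ B₂ φ₁ φ₂ z₁ z₂ hNB hy i1 i2 s1 s2 c1 c2 hz
    obtain ⟨-, Φ, hs, h3, h4, h5⟩ :=
      main hLIP hT2 hT4 hCI hW hRel hNul hPAR hEXC hUNK hsw B y₀ hNB hy
    have m1 : z₁ ∈ gen (FinS.MovedClasses B y₀) :=
      Subgroup.subset_closure (Or.inl ⟨B₁, i1.1, s1, c1⟩)
    have m2 : z₂ ∈ gen (FinS.MovedClasses B y₀) :=
      Subgroup.subset_closure (Or.inl ⟨B₂, i2.1, s2, c2⟩)
    have m3 : z₁ * z₂⁻¹ ∈ gen (FinS.MovedClasses B y₀) :=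
      (Subgroup.closure (FinS.MovedClasses B y₀)).mul_mem m1
        ((Subgroup.closure (FinS.MovedClasses B y₀)).inv_mem m2)
    have r0 := h3 _ m3 _ m2
    rw [inv_mul_cancel_right] at r0
    have r1 := h5 _ m3 hz
    have r2 : RW4 W (Φ z₁) (Φ z₂) := r_trans hCI hW (hs z₂) r0
      (RELS6.r_comp (φ := Φ z₂) (φ' := Φ z₂) (ψ := Φ (z₁ * z₂⁻¹)) (ψ' := fun x => x) hCI hW (hs z₂)
        cid (Or.inl (hs z₂)) r1)
    obtain ⟨t1, r3⟩ := h4 B₁ φ₁ z₁ i1 s1 c1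
    obtain ⟨t2, r4⟩ := h4 B₂ φ₂ z₂ i2 s2 c2
    exact hup _ _ (r_trans hCI hW t2 r3 (r_trans hCI hW t2 r2 (r_symm hCI hW (hs z₂) r4)))
  · rintro B φ hE hφ
    obtain ⟨hB, β, hβ, rfl⟩ := (impl_iff B φ).1 hφ
    obtain ⟨e1, e2⟩ := hT4 B β hB hβ
    exact hup _ _ ((elem hLIP hT2 hT4 hCI hW hRel hNul hPAR hEXC hUNK hsw B hE).2 _ e2)

end Pool.Agent.Helper18.BI.S5
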