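import Pool.Agent.Helper18.BI.R.StR4
import Pool.Agent.Helper27.BI.H.StH2
import Pool.Agent.Helper18.BI.H.StEnd
import Pool.Agent.Helper27.BI.S5.Fb

/-!
# Project BI, stage 5: arbitrary spheres (part A)

For a fixed cuff `A = F '' sph 1` and ARBITRARY (not necessarily embedded) based spheres off `A`: every square has a
class (general position), and the class, up to `W`, depends on the free homotopy class only (`StDRIFT`).
Statements (as `Prop` definitions) with complete proofs in the docstrings.  A module `M_X` proves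
`theorem m_X : StX` (possibly from other statements as hypotheses `(h : StY)`).
-/

set_option autoImplicit false

open scoped Manifold ContDiff Topology ComplexConjugate
open Set Pool.Agent.Helper65.Barb Pool.Agent.Helper18.BI
open Pool.Agent.Helper70.BI (I4 IsW MW NearEq)
open Pool.Agent.Helper27.H (ArcD HatOk K3)
open Pool.Agent.Helper27.S5 (FingB)
open Pool.Agent.Helper18.BI.H
open Pool.Agent.Helper18.BI.R

namespace Pool.Agent.Helper18.BI.S5

/-! ## general position: every square has a class -/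

/-- A continuous square in `D.U`, equal to the base arc on the boundary. -/
structure SqOK (D : ArcD) (g : ℝ → ℝ → R4) : Prop where
  cont : ContinuousOn (fun z : ℝ × ℝ => g z.1 z.2) (Icc (0 : ℝ) 1 ×ˢ Icc D.m₀ D.m₁)
  inU : ∀ q ∈ Icc (0 : ℝ) 1, ∀ s ∈ Icc D.m₀ D.m₁, g q s ∈ D.U
  bd : ∀ q ∈ Icc (0 : ℝ) 1, ∀ s ∈ Icc D.m₀ D.m₁, (q = 0 ∨ q = 1 ∨ s = D.m₀ ∨ s = D.m₁) →
    g q s = D.c s

/-- MODULE SQS.  Smoothing of squares relative to the boundary (compare `StSMG` and its proof in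
`Pool/Agent/Helper34/BI/R/M_SMG.lean`, which is the three-dimensional version).
Proof.  `C = [0,1] × [m₀,m₁]`, `∂C` its boundary.  `g '' C` is compact, contained in the open set `D.U`: there is `κ > 0` such that all points at a distance `≤ κ` from `g '' C` are in `D.U`.
`d z = g z.1 z.2 - D.c z.2` for `z ∈ C`: continuous on `C`, zero on `∂C`.  By compactness there is `r > 0` with `‖d z‖ ≤ κ/4` for all `z ∈ C` at a distance `≤ 2 r` from `∂C` (i.e. with `q`, `1-q`, `s-m₀` or `m₁-s` `≤ 2r`).  `λ : ℝ × ℝ → [0,1]` continuous, `0` outside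
`C_r = {z ∈ C at distance ≥ r from ∂C}` and `1` on `C_{2r}` (product of piecewise linear functions of the coordinates).  `f z = λ z • d z` for `z ∈ C`, `f z = 0` otherwise: continuous on `ℝ × ℝ`, `‖f - d‖ ≤ κ/4` on `C`.
`Continuous.exists_contDiff_approx_and_eqOn` gives a smooth `e` with `‖e - f‖ ≤ κ/4` everywhere and `e = f = 0` on the closed complement of the open rectangle `{z | r/2 < q, q < 1 - r/2, m₀ + r/2 < s, s < m₁ - r/2}`.
`c₀ q s = D.c s + e (q, s)`: smooth, `froz`, `start`, `stop` because `e = 0` there; on `C`: `‖c₀ - g‖ = ‖e - d‖ ≤ κ/2`, so `inU`.  The homotopy of `SH`: `H (u, q, s) = (1 - u) • c₀ q s + u • g q s`, within `κ/2` of `g q s`. -/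
def StSQS : Prop :=
  ∀ (D : ArcD) (g : ℝ → ℝ → R4), SqOK D g → ∃ c : ℝ → ℝ → R4, R.LoopOK D c ∧ SH D c g

/-- MODULE GP1.  General position of loops of arcs.
Proof.  `exists_genPos` (`Pool/Agent/Helper34/BI/Generic.lean`) for `h (q, s) = c₀ q s`, `ρ = hat 0 1`, `χ = hat D.m₀ D.m₁` (`hat`, `contDiff_hat`, `hat_ne_zero`, `hat_eq_zero`, `hat_nonneg`, `hat_le_one` in `Pool/Agent/Helper34/BI/Arcs.lean`), empty index types `ι = κ = Empty` and `Y = ℂ`
(compare the use in `exists_arcFamilyG`, `Pool/Agent/Helper34/BI/Arcs2.lean`, and in `Pool/Agent/Helper70/BI/M_NO1.lean`): `c q s = c₀ q s + (hat 0 1 q * hat m₀ m₁ s) • (v + s • w)` with `v`, `w` as small as we like.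
`C = [0,1] × [m₀,m₁]`; the image of `C` under `c₀` is compact in the open set `D.U`: `κ > 0` such that all points at a distance `≤ κ` from it are in `D.U`; choose `‖v‖, ‖w‖ ≤ ε` with `ε (1 + |m₀| + |m₁|) ≤ κ` (on `C`, `|s| ≤ |m₀| + |m₁|`, `0 ≤ hat ≤ 1`).
`LoopOK`: smooth; `froz`: `hat m₀ m₁ s = 0`; `start`, `stop`: `hat 0 1 0 = hat 0 1 1 = 0`; `inU`.
Embedded: for `q = 0`, `q = 1`: `c q = D.c`, injective on `[s₀, s₁]` (`D.core`, `D.emb.2`) with nonzero derivative there: at `s ∈ [s₀, s₁]`, `deriv D.c s = fderiv D.J (s, 0) (1, 0) ≠ 0` (see the lemmas on `ArcD` in `Pool/Agent/Helper27/BI/H/Cls.lean`, `Harc.lean`, or `EndR4.lean`; e.g. the constant loop in `StCls`).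
For `0 < q < 1`: injective: if `s ≠ s'` and `hat m₀ m₁ s ≠ 0` or `hat m₀ m₁ s' ≠ 0`: `GenPos.inj`; otherwise both values are those of `D.c`.  Derivative: if `hat m₀ m₁ s ≠ 0`: `GenPos.imm`, `deriv (c q) s = fderiv (uncurry c) (q, s) (0, 1)`.  If `hat m₀ m₁ s = 0`, that is `s ≤ m₀` or `m₁ ≤ s`, then `c q = D.c` on
`(-∞, m₀]` (or `[m₁, ∞)`), and the derivatives at `s` of these two smooth functions are equal (derivative within `Iic m₀` or `Ici m₁`, `UniqueDiffWithinAt`).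
`SH D c c₀`: `H (u, q, s) = (1 - u) • c q s + u • c₀ q s = c₀ q s + ((1 - u) hat hat) • (v + s • w)`, within `κ` of `c₀ q s`. -/
def StGP1 : Prop :=
  ∀ (D : ArcD) (c₀ : ℝ → ℝ → R4), R.LoopOK D c₀ → ∃ c : ℝ → ℝ → R4, R.LoopOK D c ∧
    (∀ q ∈ Icc (0 : ℝ) 1, InjOn (c q) (Icc D.s₀ D.s₁) ∧ ∀ s ∈ Icc D.s₀ D.s₁, deriv (c q) s ≠ 0) ∧
    SH D c c₀

/-- MODULE EX (from `StSQS`, `StGP1`, `StCls`).  Every square has a class.
Proof.  `g q s = shp D y₀ f q s` is `SqOK` (`D.smooth`).  `StSQS`: `c₀`; `StGP1`: `c`; `SH` is transitive (a lemma in `Pool/Agent/Helper18/BI/R/M_HCL.lean`, namespace `HCL`).  `StCls` (fourth claim) for the constant homotopy `(u, q, s) ↦ c q s` (`D.Htpy` from `LoopOK`), `u = 0`, gives `χ` with `D.Cls c χ`. -/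
def StEX : Prop :=
  ∀ (D : ArcD) (y₀ : R4) (f : ℝ → ℝ → R4), SqOK D (shp D y₀ f) → ∃ χ, HasCl D y₀ f χ

/-! ## the arc datum of a germ -/

/-- `D` is the arc datum of the embedding `F ∘ sq ε` with a wall of thickness `δ` (`HatOk` in
`Pool/Agent/Helper27/BI/H/StH2.lean`). -/
def HatD (F : R4 → R4) (δ ε : ℝ) (D : ArcD) : Prop :=
  ∃ (T T' : R4 → R4), FingB T T' ∧ δ ∈ Ioo (0 : ℝ) (1 / 100) ∧
    EmbOn I4 (fun p => F (sq ε p)) (K3 δ) ∧ HatOk δ T' (fun p => F (sq ε p)) D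

/-- HATK (helper18).  `StHATn` with the information that `D` is the datum of `F ∘ sq ε`. -/
def StHATk : Prop :=
  ∀ (ι : Type) [Finite ι] (F : R4 → R4) (Fi φ : ι → R4 → R4) (V : Set R4), EmbOn I4 F SP →
    (∀ i, EmbOn I4 (Fi i) SP) → IsOpen V → sph 1 ∪ neckE ⊆ V → (∀ i, EqOn F (Fi i) V) →
    (∀ i, Thin I4 (Fi i) (φ i)) → ∀ κ > 0, ∃ δ₀ > 0, ∀ δ ∈ Ioo 0 δ₀, ∃ ε₀ > 0, ∀ ε ∈ Ioo 0 ε₀,
    ∃ D : ArcD, HatD F δ ε D ∧
      D.m₀ = 9 / 20 ∧ D.m₁ = 11 / 20 ∧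
      (∀ x, x ∉ D.U → ∃ y ∈ F '' sph 1, dist x y < κ) ∧
      (∀ s ∈ Icc (3 / 10 : ℝ) (7 / 10), D.c s = F (sq ε (s, ((73 / 100 : ℝ), 0)))) ∧
      ∀ i, D.Cls (loopF (Fi i) (3 / 10) (7 / 10) ε D) (φ i)

/-! ## the classes of freely homotopic spheres -/

/-- The classes of the based spheres `g`, `g'` (`g (1,0) = g' (1,0) = bp F`) off the fixed cuff are equal up to `W`, in
all arc data of `F` whose wall is sufficiently close to the fixed cuff. -/
def DR (F : R4 → R4) (g g' : R3 → R4) : Prop :=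
  ∃ κ > 0, ∃ δ₀ > 0, ∀ δ ∈ Ioo 0 δ₀, ∃ ε₀ > 0, ∀ ε ∈ Ioo 0 ε₀, ∀ D : ArcD, HatD F δ ε D →
    (∀ x, x ∉ D.U → ∃ y ∈ F '' sph 1, dist x y < κ) → ∀ W χ χ' : R4 → R4, IsW W →
    HasCl D (bp F) (fun q s => g (mm q s)) χ → HasCl D (bp F) (fun q s => g' (mm q s)) χ' →
    CIsot I4 χ' χ ∨ CIsot I4 χ' (fun x => W (χ x))

/-- DRIFT (helper27: the crossing lemma; helper34: from the crossing lemma, all paths).  Based spheres which are freely homotopic off
the fixed cuff have the same class up to `W`. -/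
def StDRIFT : Prop :=
  ∀ (F : R4 → R4) (h : ℝ × R3 → R4), EmbOn I4 F SP → ContinuousOn h (Icc (0 : ℝ) 1 ×ˢ S2) →
    h (0, (1, 0)) = bp F → h (1, (1, 0)) = bp F →
    (∀ u ∈ Icc (0 : ℝ) 1, ∀ m ∈ S2, h (u, m) ∉ F '' sph 1) →
    DR F (fun m => h (0, m)) (fun m => h (1, m))

/-! ## the relation theorem in `R4` -/

/-- equal up to isotopy and `W` -/
def RU (W φ ψ : R4 → R4) : Prop := CIsot I4 φ ψ ∨ CIsot I4 φ (fun x => W (ψ x))

/-- REL6 (helper18; from `StDRIFT`, `StEX`, `StHATk` and the statements used in `M_REL4.lean`).  Based spheres `h i (0, ·)`, free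
homotopies `h i` to the spheres `b i`; for `i ∈ G` the sphere `b i` is the moved cuff of the germ `Fi i`; for `(i, j) ∈ P`, `b i = b j`. -/
def StREL6 : Prop :=
  ∀ (n : ℕ) (F : R4 → R4) (G : Set (Fin n)) (P : Set (Fin n × Fin n)) (Fi φ : Fin n → R4 → R4)
    (U : Set R4) (b : Fin n → R3 → R4) (h : Fin n → ℝ × R3 → R4) (W : R4 → R4)
    (l : List (Fin n × Bool)) (N : ℝ × ℝ × ℝ → R4), IsW W → EmbOn I4 F SP → IsOpen U →
    sph 1 ⊆ U → (∀ i ∈ G, EmbOn I4 (Fi i) SP ∧ EqOn F (Fi i) U ∧ Thin I4 (Fi i) (φ i) ∧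
      ∀ m ∈ S2, b i m = Fi i (1 / 2, (1 / 5 : ℝ) • m)) →
    (∀ x ∈ P, EqOn (b x.1) (b x.2) S2) → FreeOff (F '' sph 1) (F (bar (1 / 2))) b h →
    NullOff (F '' sph 1) (F (bar (1 / 2))) (fun i m => h i (0, m)) l N →
    ∃ ψ ψ' : Fin n → R4 → R4, (∀ i x, ψ i (ψ' i x) = x) ∧ (∀ i x, ψ' i (ψ i x) = x) ∧
      (∀ i, CIsot I4 (ψ i) (ψ i)) ∧ (∀ i ∈ G, RU W (ψ i) (φ i)) ∧
      (∀ x ∈ P, RU W (ψ x.1) (ψ x.2)) ∧ RU W (evD ψ ψ' l) (fun x => x)

end Pool.Agent.Helper18.BI.S5
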