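import Pool.Agent.Helper18.BI.H.HatN
import Pool.Agent.Helper18.BI.S5.StA

/-!
# Project BI, stage 5, module HATK: the arc datum of a germ, for finite families
-/

set_option autoImplicit false

open scoped Manifold ContDiff Topology ComplexConjugate
open Set Filter Pool.Agent.Helper65.Barb Pool.Agent.Helper18.BI
open Pool.Agent.Helper27.BI
open Pool.Agent.Helper70.BI (I4 LD NearEq)
open Pool.Agent.Helper27.H Pool.Agent.Helper27.S5
open Pool.Agent.Helper18.BI.H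

namespace Pool.Agent.Helper18.BI.S5

theorem shell_mono {δ δ' : ℝ} (h : δ ≤ δ') : shell δ ⊆ shell δ' := fun _ hp =>
  ⟨hp.1, by linarith [hp.2.1], hp.2.2⟩

/-- **HATK.** -/
theorem m_HATK : StHATk := by
  intro ι _ F Fi φ V hF hFi hV hVs hFF hφ κ hκ
  obtain ⟨T, T', FΛ, hTB, hΛ, hiso⟩ := hFINGB
  have hT := hTB.ok
  obtain ⟨O, hO, hSPO, hFO, hFc⟩ := emb_open hS4.2.2.2.2.2.2.2.2.1 hF
  choose O' hO' hSPO' hFO' hFc' using fun i => emb_open hS4.2.2.2.2.2.2.2.2.1 (hFi i)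
  have hsphSP : sph 1 ⊆ SP := fun p hp => Or.inl (Or.inr hp)
  -- the neighbourhood of the fixed cuff
  have hW : IsOpen (O ∩ F ⁻¹' (Metric.thickening κ (F '' sph 1))) :=
    hFc.isOpen_inter_preimage hO Metric.isOpen_thickening
  have hI : IsOpen (⋂ i, O' i) := isOpen_iInter_of_finite hO'
  obtain ⟨δ₀, hδ₀, hsh₀⟩ := exists_shell
    (O := (O ∩ F ⁻¹' (Metric.thickening κ (F '' sph 1))) ∩ ((⋂ i, O' i) ∩ V))
    (hW.inter (hI.inter hV))
    (fun p hp => ⟨⟨hSPO (hsphSP hp), Metric.self_subset_thickening hκ _ ⟨p, hp, rfl⟩⟩,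
      mem_iInter.2 fun i => hSPO' i (hsphSP hp), hVs (Or.inl hp)⟩)
  refine ⟨δ₀, hδ₀.1, fun δ hδi => ?_⟩
  have hδ : δ ∈ Ioo (0 : ℝ) (1 / 100) := ⟨hδi.1, hδi.2.trans hδ₀.2⟩
  have hsh := (shell_mono hδi.2.le).trans hsh₀
  have hLc : IsCompact (SP ∪ shell δ) := (hS4.2.2.2.2.2.2.2.2.1).union (isCompact_shell δ)
  have hFL : EmbOn I4 F (SP ∪ shell δ) := Pool.Agent.Helper27.BI.EmbOn.mono hFO
    (union_subset hSPO fun p hp => (hsh hp).1.1)
  have hFL' : ∀ i, EmbOn I4 (Fi i) (SP ∪ shell δ) := fun i =>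
    Pool.Agent.Helper27.BI.EmbOn.mono (hFO' i)
      (union_subset (hSPO' i) fun p hp => mem_iInter.1 (hsh hp).2.1 i)
  have e1 := near_iff.1
    (hT6 R4 R4 I4 R4 F (K3 δ) _ (isCompact_K3 δ) hLc (fun p hp => sq0_K3 hp) hFL)
  have e2 := eventually_all.2 fun i => near_iff.1
    (hT6 R4 R4 I4 R4 (Fi i) (K3 δ) _ (isCompact_K3 δ) hLc (fun p hp => sq0_K3 hp) (hFL' i))
  have hnc : IsCompact {p : R4 | p ∈ K3 δ ∧ rsq 1 p ≤ 1 / 9} :=
    (isCompact_K3 δ).inter_right (isClosed_le (continuous_rsq 1) continuous_const)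
  have e3 := near_iff.1 (exists_eps hnc hV (by
    intro p hp
    rcases sq0_near hp.1 hp.2 with h | h
    · exact (hsh h).2.2
    · exact hVs h))
  have e4 := near_iff.1 (exists_eps (isCompact_wall hδ) hW (by
    intro p hp
    have h5 : sq 0 p = (1 / 2, p.2) := hS4.2.2.1 p (Or.inr (Or.inl (by linarith [hp.2.2.2, hδ.1])))
    have h6 : ((1 / 2, p.2) : R4) ∈ shell δ :=
      ⟨rfl, hp.2.2.1, by show rsq 1 p ≤ 1 / 25; linarith [hp.2.2.2, hδ.1]⟩
    rw [h5]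
    exact (hsh h6).1))
  have e5 := eventually_all.2 fun i => near_iff.1 (hφ i)
  rw [near_iff]
  filter_upwards [e1, e2, e3, e4, e5, self_mem_nhdsWithin] with ε f3 f4 e3 e4 f2 hε
  have hε : 0 < ε := hε
  have eG : F ∘ sq ε = fun p => F (sq ε p) := rfl
  have eG' : ∀ i, Fi i ∘ sq ε = fun p => Fi i (sq ε p) := fun _ => rfl
  rw [eG] at f3
  simp only [eG'] at f2 f4
  have hG : EmbOn I4 (fun p => F (sq ε p)) (K3 δ) := f3.1
  obtain ⟨D, hD⟩ := hHARC T T' (fun p => F (sq ε p)) δ hT hδ hG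
  have hn : ∀ i, NearEq (fun p => F (sq ε p)) (fun p => Fi i (sq ε p))
      {p | p ∈ K3 δ ∧ rsq 1 p ≤ 1 / 9} := fun i =>
    ⟨sq ε ⁻¹' V, hV.preimage (continuous_sq hε), fun p hp => e3 p hp, fun p hp => hFF i hp⟩
  refine ⟨D, ⟨T, T', hTB, hδ, hG, hD⟩, hD.m₀, hD.m₁, ?_, ?_, fun i => ?_⟩
  · intro x hx
    rw [hD.U] at hx
    obtain ⟨p, hp, rfl⟩ := not_not.1 hx
    have h7 : F (sq ε p) ∈ Metric.thickening κ (F '' sph 1) := (e4 p hp).2
    obtain ⟨y, hy, hd⟩ := Metric.mem_thickening_iff.1 h7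
    exact ⟨y, hy, hd⟩
  · intro s hs
    have hs' : s ∈ Icc D.s₀ D.s₁ := ⟨by linarith [hs.1, hD.s₀.2], by linarith [hs.2, hD.s₁.1]⟩
    rw [← D.core s hs', hD.J]
    show F (sq ε (s, z0 s + 0)) = _
    rw [add_zero]
    unfold z0
    rw [bfin_mid hs]
    have e : (1 - 27 / 100 : ℝ) • Pool.Agent.Helper27.BI.e1 = (((73 / 100 : ℝ), 0) : R3) := by
      show (1 - 27 / 100 : ℝ) • (((1 : ℝ), (0 : ℂ)) : R3) = _
      rw [Prod.smul_mk, smul_zero, smul_eq_mul]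
      norm_num
    rw [e]
  · obtain ⟨c1, -⟩ := m_HCLS T T' (fun p => F (sq ε p)) (fun p => Fi i (sq ε p)) (φ i) FΛ δ D hT hΛ
      hiso hδ hG hD (f4 i).1 (hn i) (f2 i).2
    have e : loopF (Fi i) (3 / 10) (7 / 10) ε D = loopc D (fun p => Fi i (sq ε p)) := by
      funext q s
      unfold loopF loopc
      by_cases hs : s ∈ Icc (3 / 10 : ℝ) (7 / 10)
      · rw [if_pos hs, if_pos (show 3 / 10 ≤ s ∧ s ≤ 7 / 10 from hs)]
        have : zq q s = (73 / 100 : ℝ) • mm q s := by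
          unfold zq
          rw [bfin_mid hs, show (1 - 27 / 100 : ℝ) = 73 / 100 by norm_num]
          rfl
        rw [this]
      · rw [if_neg hs, if_neg (show ¬ (3 / 10 ≤ s ∧ s ≤ 7 / 10) from hs)]
    rw [e]
    exact c1

end Pool.Agent.Helper18.BI.S5
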