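import Pool.Agent.Helper18.BI.S5.StA
import Pool.Agent.Helper18.BI.R.M_REL4

/-!
# Project BI, stage 5, module REL6: the relation theorem in `R4` for arbitrary spheres
-/

set_option autoImplicit false
set_option linter.unusedSectionVars false

open scoped Manifold ContDiff Topology ComplexConjugate
open Set Filter Pool.Agent.Helper65.Barb Pool.Agent.Helper18.BI
open Pool.Agent.Helper70.BI (I4 IsW MW StMWL)
open Pool.Agent.Helper27.H (ArcD)
open Pool.Agent.Helper18.BI.H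
open Pool.Agent.Helper18.BI.R

namespace Pool.Agent.Helper18.BI.S5

namespace REL6

/-- two descriptions of the square of a word -/
theorem evS_evM {n : ℕ} (y : R4) (g : Fin n → R3 → R4) (l : List (Fin n × Bool)) (q s : ℝ) :
    evS y g l q s = evM y g l q s := by
  induction l generalizing q with
  | nil => rfl
  | cons p l ih =>
    obtain ⟨i, b⟩ := p
    rcases b with _ | _
    · show qcat _ _ q s = qcatM _ _ q s
      unfold qcat qcatM
      split_ifs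
      · rfl
      · exact ih _
    · show qcat _ _ q s = qcatM _ _ q s
      unfold qcat qcatM
      split_ifs
      · rfl
      · exact ih _

/-- concatenation of a homotopy with the inverse of another one -/
theorem concat_inv {A : Set R4} {k k' : ℝ × R3 → R4}
    (hk : ContinuousOn k (Icc (0 : ℝ) 1 ×ˢ S2)) (hk' : ContinuousOn k' (Icc (0 : ℝ) 1 ×ˢ S2))
    (he : ∀ m ∈ S2, k (1, m) = k' (1, m))
    (ho : ∀ u ∈ Icc (0 : ℝ) 1, ∀ m ∈ S2, k (u, m) ∉ A)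
    (ho' : ∀ u ∈ Icc (0 : ℝ) 1, ∀ m ∈ S2, k' (u, m) ∉ A) :
    ∃ L : ℝ × R3 → R4, ContinuousOn L (Icc (0 : ℝ) 1 ×ˢ S2) ∧ (∀ m ∈ S2, L (0, m) = k (0, m)) ∧
      (∀ m ∈ S2, L (1, m) = k' (0, m)) ∧ ∀ u ∈ Icc (0 : ℝ) 1, ∀ m ∈ S2, L (u, m) ∉ A := by
  let L : ℝ × R3 → R4 := fun z => if z.1 ≤ 1 / 2 then k (2 * z.1, z.2) else k' (2 - 2 * z.1, z.2)
  have ka : ∀ u ∈ Icc (0 : ℝ) (1 / 2), ∀ m ∈ S2, L (u, m) = k (2 * u, m) :=
    fun u hu m _ => if_pos hu.2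
  have kb : ∀ u ∈ Icc (1 / 2 : ℝ) 1, ∀ m ∈ S2, L (u, m) = k' (2 - 2 * u, m) := by
    intro u hu m hm
    by_cases h2 : u ≤ 1 / 2
    · have h3 : u = 1 / 2 := le_antisymm h2 hu.1
      subst h3
      rw [ka _ ⟨by norm_num, le_rfl⟩ m hm]
      have e1 : (2 * (1 / 2) : ℝ) = 1 := by norm_num
      have e2 : (2 - 2 * (1 / 2) : ℝ) = 1 := by norm_num
      rw [e2, e1, he m hm]
    · exact if_neg h2
  refine ⟨L, ?_, ?_, ?_, ?_⟩
  · have e : Icc (0 : ℝ) 1 ×ˢ S2 = (Icc 0 (1 / 2) ×ˢ S2) ∪ (Icc (1 / 2) 1 ×ˢ S2) := by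
      rw [← Set.union_prod, Icc_union_Icc_eq_Icc (by norm_num) (by norm_num)]
    rw [e]
    refine ContinuousOn.union_of_isClosed ?_ ?_ (isClosed_Icc.prod isCompact_S2.isClosed)
      (isClosed_Icc.prod isCompact_S2.isClosed)
    · refine ContinuousOn.congr (f := fun z : ℝ × R3 => k (2 * z.1, z.2)) ?_ ?_
      · refine hk.comp (Continuous.continuousOn (by fun_prop)) ?_
        rintro ⟨u, m⟩ hz
        have hz1 : 0 ≤ u ∧ u ≤ 1 / 2 := hz.1
        exact ⟨⟨by show (0 : ℝ) ≤ 2 * u; linarith, by show 2 * u ≤ (1 : ℝ); linarith⟩, hz.2⟩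
      · rintro ⟨u, m⟩ hz
        exact ka u hz.1 m hz.2
    · refine ContinuousOn.congr (f := fun z : ℝ × R3 => k' (2 - 2 * z.1, z.2)) ?_ ?_
      · refine hk'.comp (Continuous.continuousOn (by fun_prop)) ?_
        rintro ⟨u, m⟩ hz
        have hz1 : 1 / 2 ≤ u ∧ u ≤ 1 := hz.1
        exact ⟨⟨by show (0 : ℝ) ≤ 2 - 2 * u; linarith, by show 2 - 2 * u ≤ (1 : ℝ); linarith⟩, hz.2⟩
      · rintro ⟨u, m⟩ hz
        exact kb u hz.1 m hz.2
  · intro m hm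
    rw [ka 0 ⟨le_rfl, by norm_num⟩ m hm, mul_zero]
  · intro m hm
    rw [kb 1 ⟨by norm_num, le_rfl⟩ m hm]
    norm_num
  · intro u hu m hm
    rcases le_total u (1 / 2) with h2 | h2
    · rw [ka u ⟨hu.1, h2⟩ m hm]
      exact ho _ ⟨by linarith [hu.1], by linarith⟩ m hm
    · rw [kb u ⟨h2, hu.2⟩ m hm]
      exact ho' _ ⟨by linarith [hu.2], by linarith⟩ m hm

end REL6

open REL6 in
/-- **REL6.** -/
theorem m_REL6 (hSTR2 : StSTR2) (hMOVE : StMOVE) (hFREE : StFREE) (hHAT : StHATk) (hBAS : StBAS)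
    (hNRB : StNRB) (hHCL : StHCL) (hEX : StEX) (hDRIFT : StDRIFT) (hMWL : StMWL) (hT2 : StT2)
    (hCI : StCI) : StREL6 := by
  intro n F Gr P Fi φ U b h W l N hW hF hU hsU hG0 hP ⟨hh, h1, h0, hoff⟩ ⟨hN, hN01, hNoff⟩
  obtain ⟨cid, cs, cself, ct, cc, cinv, cex, -⟩ := hCI _ _ 𝓘(ℝ, R4) R4
  have tself := (hT2 _ _ 𝓘(ℝ, R4) R4).2.2.2.2.2.2
  obtain ⟨K, b', U₁, V, hU₁, hsU₁, hK, hV, hsV, hKV, hb1, hb2, hKb, hKF⟩ := hSTR2 U hU hsU
  obtain ⟨Ψ, hΨc, hΨ0, hΨ1, hΨoff⟩ := hMOVE F (1 / 2) b' hF (by constructor <;> norm_num) ⟨hb1, hb2⟩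
  -- the stretched germs
  have hF₁ : EmbOn I4 (fun p => F (K p)) SP := (hKF F hF).1
  have hG : ∀ i ∈ Gr, EmbOn I4 (fun p => Fi i (K p)) SP := fun i hi => (hKF _ (hG0 i hi).1).1
  have hEG : ∀ i ∈ Gr, EqOn (fun p => F (K p)) (fun p => Fi i (K p)) V := fun i hi p hp =>
    (hG0 i hi).2.1 (hKV p hp)
  have hTG : ∀ i ∈ Gr, Thin I4 (fun p => Fi i (K p)) (φ i) := fun i hi =>
    (hKF _ (hG0 i hi).1).2 _ (hG0 i hi).2.2.1
  have hbp : bp (fun p => F (K p)) = F (bar b') := by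
    show F (K (bar (73 / 100))) = F (bar b')
    rw [hKb]
  have him : (fun p => F (K p)) '' sph 1 = F '' sph 1 :=
    image_congr fun p hp => by rw [hK p (hsU₁ (Or.inr hp))]
  -- the homotopies with moved base points
  let k : Fin n → ℝ × R3 → R4 := fun i z =>
    if z.1 ≤ 1 / 2 then Ψ (1 - 2 * z.1, h i (0, z.2)) else h i (2 * z.1 - 1, z.2)
  have ka : ∀ i, ∀ u ∈ Icc (0 : ℝ) (1 / 2), ∀ m ∈ S2, k i (u, m) = Ψ (1 - 2 * u, h i (0, m)) :=
    fun i u hu m _ => if_pos hu.2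
  have kb : ∀ i, ∀ u ∈ Icc (1 / 2 : ℝ) 1, ∀ m ∈ S2, k i (u, m) = h i (2 * u - 1, m) := by
    intro i u hu m hm
    by_cases h2 : u ≤ 1 / 2
    · have h3 : u = 1 / 2 := le_antisymm h2 hu.1
      subst h3
      rw [ka i _ ⟨by norm_num, le_rfl⟩ m hm]
      have e1 : (1 - 2 * (1 / 2) : ℝ) = 0 := by norm_num
      have e2 : (2 * (1 / 2) - 1 : ℝ) = 0 := by norm_num
      rw [e1, e2, hΨ0]
    · exact if_neg h2
  have kc : ∀ i, ContinuousOn (k i) (Icc (0 : ℝ) 1 ×ˢ S2) := by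
    intro i
    have e : Icc (0 : ℝ) 1 ×ˢ S2 = (Icc 0 (1 / 2) ×ˢ S2) ∪ (Icc (1 / 2) 1 ×ˢ S2) := by
      rw [← Set.union_prod, Icc_union_Icc_eq_Icc (by norm_num) (by norm_num)]
    rw [e]
    refine ContinuousOn.union_of_isClosed ?_ ?_ (isClosed_Icc.prod isCompact_S2.isClosed)
      (isClosed_Icc.prod isCompact_S2.isClosed)
    · refine ContinuousOn.congr (f := fun z : ℝ × R3 => Ψ (1 - 2 * z.1, h i (0, z.2))) ?_ ?_
      · refine hΨc.comp_continuousOn ?_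
        refine ContinuousOn.prodMk (Continuous.continuousOn (by fun_prop)) ?_
        refine (hh i).comp (Continuous.continuousOn (by fun_prop)) ?_
        rintro ⟨u, m⟩ hz
        exact ⟨⟨le_rfl, zero_le_one⟩, hz.2⟩
      · rintro ⟨u, m⟩ hz
        exact ka i u hz.1 m hz.2
    · refine ContinuousOn.congr (f := fun z : ℝ × R3 => h i (2 * z.1 - 1, z.2)) ?_ ?_
      · refine (hh i).comp (Continuous.continuousOn (by fun_prop)) ?_
        rintro ⟨u, m⟩ hz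
        have hz1 : 1 / 2 ≤ u ∧ u ≤ 1 := hz.1
        exact ⟨⟨by show (0 : ℝ) ≤ 2 * u - 1; linarith, by show 2 * u - 1 ≤ (1 : ℝ); linarith⟩, hz.2⟩
      · rintro ⟨u, m⟩ hz
        exact kb i u hz.1 m hz.2
  have k1' : ∀ i, ∀ m ∈ S2, k i (1, m) = b i m := by
    intro i m hm
    rw [kb i 1 ⟨by norm_num, le_rfl⟩ m hm]
    have e1 : (2 * 1 - 1 : ℝ) = 1 := by norm_num
    rw [e1, h1 i m hm]
  have k1 : ∀ i ∈ Gr, ∀ m ∈ S2, k i (1, m) = (fun p => Fi i (K p)) (1 / 2, (1 / 5 : ℝ) • m) := by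
    intro i hi m hm
    rw [k1' i m hm, (hG0 i hi).2.2.2 m hm]
    show _ = Fi i (K _)
    rw [hK _ (hsU₁ (Or.inl (cuff_mem hm)))]
  have k0' : ∀ i, ∀ m ∈ S2, k i (0, m) = Ψ (1, h i (0, m)) := by
    intro i m hm
    rw [ka i 0 ⟨le_rfl, by norm_num⟩ _ hm]
    norm_num
  have k0 : ∀ i, k i (0, (1, 0)) = bp (fun p => F (K p)) := by
    intro i
    rw [k0' i _ base_mem_S2, h0 i, hbp, hΨ1]
  have koff : ∀ i, ∀ u ∈ Icc (0 : ℝ) 1, ∀ m ∈ S2, k i (u, m) ∉ (fun p => F (K p)) '' sph 1 := by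
    intro i u hu m hm
    rw [him]
    rcases le_total u (1 / 2) with h2 | h2
    · rw [ka i u ⟨hu.1, h2⟩ m hm]
      exact hΨoff _ _ (hoff i 0 ⟨le_rfl, zero_le_one⟩ m hm)
    · rw [kb i u ⟨h2, hu.2⟩ m hm]
      exact hoff i _ ⟨by linarith, by linarith [hu.2]⟩ m hm
  -- the germs with the right bars
  choose G φ₂ V₂ H hG₂ hV₂ hsV₂ hE₂ hT₂ hor hHc hH0 hH1 hHb hHoff using fun i : Gr =>
    hFREE (fun p => F (K p)) (fun p => Fi i (K p)) V W (φ i) (k i) hW hF₁ (hG i i.2) hV hsV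
      (hEG i i.2) (hTG i i.2) (kc i) (k1 i i.2) (k0 i) (koff i)
  -- the pairs
  have hDR : ∀ x : P, DR (fun p => F (K p)) (fun m => Ψ (1, h x.1.1 (0, m)))
      (fun m => Ψ (1, h x.1.2 (0, m))) := by
    rintro ⟨⟨i, j⟩, hx⟩
    obtain ⟨L, hL1, hL2, hL3, hL4⟩ := concat_inv (kc i) (kc j)
      (fun m hm => by rw [k1' i m hm, k1' j m hm]; exact hP _ hx hm) (koff i) (koff j)
    have h2 := hDRIFT (fun p => F (K p)) L hF₁ hL1 (by rw [hL2 _ base_mem_S2, k0])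
      (by rw [hL3 _ base_mem_S2, k0]) hL4
    obtain ⟨κ, hκ, δ₀, hδ₀, h3⟩ := h2
    refine ⟨κ, hκ, δ₀, hδ₀, fun δ hδ => ?_⟩
    obtain ⟨ε₀, hε₀, h3⟩ := h3 δ hδ
    refine ⟨ε₀, hε₀, fun ε hε D hD hDU W χ χ' hW c1 c2 => h3 ε hε D hD hDU W χ χ' hW ?_ ?_⟩
    · have e : (fun q s => L (0, mm q s)) = fun q s => Ψ (1, h i (0, mm q s)) := by
        funext q s
        rw [hL2 _ (mm_S2 q s), k0' i _ (mm_S2 q s)]
      show HasCl D _ (fun q s => L (0, mm q s)) χ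
      rw [e]
      exact c1
    · have e : (fun q s => L (1, mm q s)) = fun q s => Ψ (1, h j (0, mm q s)) := by
        funext q s
        rw [hL3 _ (mm_S2 q s), k0' j _ (mm_S2 q s)]
      show HasCl D _ (fun q s => L (1, mm q s)) χ'
      rw [e]
      exact c2
  choose κd hκd δd hδd hdr₀ using hDR
  -- constants
  choose κb hκb εb hεb hbas using fun i : Gr => hBAS (fun p => F (K p)) (G i) (V₂ i) hF₁ (hG₂ i)
    (hV₂ i) (hsV₂ i) (hE₂ i)
  have hAc : IsCompact (F '' sph 1) := by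
    have h1 : IsCompact (sph 1) := by
      refine hS4.2.2.2.2.2.2.2.2.1.of_isClosed_subset ?_ (fun p hp => Or.inl (Or.inr hp))
      apply IsClosed.inter (isClosed_eq continuous_fst continuous_const)
      exact isClosed_eq (continuous_rsq 1) continuous_const
    exact h1.image_of_continuousOn
      ((embOn_continuousOn hF).mono fun p hp => Or.inl (Or.inr hp))
  have hbox : IsCompact box := isCompact_Icc.prod (isCompact_Icc.prod isCompact_Icc)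
  obtain ⟨κ, hκ0, hκ1, hκ2, hκ3, hκ4, hκ5⟩ : ∃ κ : ℝ, 0 < κ ∧ (∀ i, κ ≤ κb i) ∧
      (∀ i, ∀ z ∈ Icc (0 : ℝ) 1 ×ˢ S2, ∀ y ∈ F '' sph 1, 2 * κ ≤ dist (H i z) y) ∧
      (∀ z ∈ box, ∀ y ∈ F '' sph 1, 2 * κ ≤ dist (Ψ (1, N z)) y) ∧ (∀ x, κ ≤ κd x) ∧
      ∀ i, ∀ m ∈ S2, ∀ y ∈ F '' sph 1, 2 * κ ≤ dist (Ψ (1, h i (0, m))) y := by
    have a1 : ∀ᶠ κ in 𝓝[>] (0 : ℝ), ∀ i, κ ≤ κb i := eventually_all.2 fun i => by
      filter_upwards [Ioo_mem_nhdsGT (hκb i)] with κ hκ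
      exact hκ.2.le
    have a2 : ∀ᶠ κ in 𝓝[>] (0 : ℝ), ∀ i, ∀ z ∈ Icc (0 : ℝ) 1 ×ˢ S2, ∀ y ∈ F '' sph 1,
        2 * κ ≤ dist (H i z) y := eventually_all.2 fun i =>
      margin (isCompact_Icc.prod isCompact_S2) (hHc i) hAc (by
        rintro ⟨u, m⟩ hz
        have := hHoff i u hz.1 m hz.2
        rwa [him] at this)
    have a3 := margin (f := fun z => Ψ (1, N z)) hbox
      (hΨc.comp_continuousOn (continuousOn_const.prodMk hN)) hAc (by
        rintro ⟨u, q, s⟩ hz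
        exact hΨoff _ _ (hNoff u hz.1 q hz.2.1 s hz.2.2).1)
    have a4 : ∀ᶠ κ in 𝓝[>] (0 : ℝ), ∀ x, κ ≤ κd x := eventually_all.2 fun x => by
      filter_upwards [Ioo_mem_nhdsGT (hκd x)] with κ hκ
      exact hκ.2.le
    have a5 : ∀ᶠ κ in 𝓝[>] (0 : ℝ), ∀ i, ∀ m ∈ S2, ∀ y ∈ F '' sph 1,
        2 * κ ≤ dist (Ψ (1, h i (0, m))) y := eventually_all.2 fun i =>
      margin (f := fun m => Ψ (1, h i (0, m))) isCompact_S2
        (hΨc.comp_continuousOn (continuousOn_const.prodMk ((hh i).comp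
          (Continuous.continuousOn (by fun_prop)) fun m hm => ⟨⟨le_rfl, zero_le_one⟩, hm⟩))) hAc
        (fun m hm => hΨoff _ _ (hoff i 0 ⟨le_rfl, zero_le_one⟩ m hm))
    obtain ⟨κ, b1, b2, b3, b4, b5, b6⟩ :=
      (a1.and (a2.and (a3.and (a4.and (a5.and self_mem_nhdsWithin))))).exists
    exact ⟨κ, b6, b1, b2, b3, b4, b5⟩
  obtain ⟨δH, hδH, hHAT'⟩ := hHAT Gr (fun p => F (K p)) G φ₂ (⋂ i, V₂ i) hF₁ hG₂
    (isOpen_iInter_of_finite hV₂) (subset_iInter hsV₂)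
    (fun i p hp => hE₂ i (mem_iInter.1 hp i)) hT₂ κ hκ0
  obtain ⟨δ, hδ1, hδ2⟩ : ∃ δ : ℝ, δ ∈ Ioo 0 δH ∧ ∀ x, δ ∈ Ioo 0 (δd x) := by
    have a1 : ∀ᶠ δ in 𝓝[>] (0 : ℝ), δ ∈ Ioo 0 δH := Ioo_mem_nhdsGT hδH
    have a2 : ∀ᶠ δ in 𝓝[>] (0 : ℝ), ∀ x, δ ∈ Ioo 0 (δd x) := eventually_all.2 fun x =>
      Ioo_mem_nhdsGT (hδd x)
    exact (a1.and a2).exists
  choose εd hεd hdr using fun x => hdr₀ x δ (hδ2 x)
  have e1 := near_iff.1 (hHAT' δ hδ1)
  have e2 : ∀ᶠ ε in 𝓝[>] (0 : ℝ), ∀ i, ε ∈ Ioo 0 (εb i) := eventually_all.2 fun i =>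
    Ioo_mem_nhdsGT (hεb i)
  have e3 := near_iff.1 (hNRB (fun p => F (K p)) hF₁ κ hκ0)
  have e4 : ∀ᶠ ε in 𝓝[>] (0 : ℝ), ∀ x, ε ∈ Ioo 0 (εd x) := eventually_all.2 fun x =>
    Ioo_mem_nhdsGT (hεd x)
  obtain ⟨ε, f1, f2, f3, f4⟩ := (e1.and (e2.and (e3.and e4))).exists
  obtain ⟨D, hHD, hm₀, hm₁, hDU, hDc, hcl⟩ := f1
  have hnear : ∀ s ∈ Icc D.m₀ D.m₁, dist (D.c s) (bp (fun p => F (K p))) ≤ κ := by
    intro s hs
    rw [hm₀, hm₁] at hs
    have hs' : s ∈ Icc (3 / 10 : ℝ) (7 / 10) := ⟨by linarith [hs.1], by linarith [hs.2]⟩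
    rw [hDc s hs']
    exact f3 s hs'
  have hinU : ∀ x : R4, (∀ y ∈ F '' sph 1, 2 * κ ≤ dist x y) → ∀ s ∈ Icc D.m₀ D.m₁,
      x + (D.c s - bp (fun p => F (K p))) ∈ D.U := by
    intro x hx s hs
    by_contra hcon
    obtain ⟨y, hy, hd⟩ := hDU _ hcon
    rw [him] at hy
    have h1 := hx y hy
    have h2 := hnear s hs
    have h3 : dist x (x + (D.c s - bp (fun p => F (K p)))) ≤ κ := by
      rw [dist_eq_norm] at h2 ⊢
      rw [show x - (x + (D.c s - bp (fun p => F (K p)))) = -(D.c s - bp (fun p => F (K p))) by abel,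
        norm_neg]
      exact h2
    have h4 := dist_triangle x (x + (D.c s - bp (fun p => F (K p)))) y
    linarith
  obtain ⟨hnil, hcat, hinv, hhom, hcls, hself, hrel⟩ := hHCL D (bp (fun p => F (K p)))
  have hsc : Continuous fun s => D.c s := D.smooth.continuous
  have hmm : ∀ q s, (q = 0 ∨ q = 1 ∨ s = D.m₀ ∨ s = D.m₁) → mm q s = (1, 0) := by
    intro q s hbd
    rw [hm₀, hm₁] at hbd
    rcases hbd with h | h | h | h
    · exact mm_ends q s (Or.inl h)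
    · exact mm_ends q s (Or.inr h)
    · exact mm_edge q s (Or.inl h.le)
    · exact mm_edge q s (Or.inr h.ge)
  -- the classes of the based spheres
  have hex : ∀ i, ∃ χ, HasCl D (bp (fun p => F (K p))) (fun q s => Ψ (1, h i (0, mm q s))) χ := by
    intro i
    refine hEX D _ _ ⟨?_, ?_, ?_⟩
    · refine ContinuousOn.add ?_ (Continuous.continuousOn ?_)
      · refine Continuous.comp_continuousOn (g := fun x : R4 => Ψ (1, x)) (by fun_prop) ?_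
        refine (hh i).comp (Continuous.continuousOn ?_) ?_
        · exact continuous_const.prodMk continuous_mm
        · rintro ⟨q, s⟩ hz
          exact ⟨⟨le_rfl, zero_le_one⟩, mm_S2 _ _⟩
      · exact (hsc.comp continuous_snd).sub continuous_const
    · intro q hq s hs
      exact hinU _ (hκ5 i _ (mm_S2 q s)) s hs
    · intro q hq s hs hbd
      show Ψ (1, h i (0, mm q s)) + _ = _
      rw [hmm q s hbd, h0 i, hΨ1, hbp]
      abel
  choose ψ hψ using hex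
  have hgen : ∀ i : Gr, HasCl D (bp (fun p => F (K p))) (fun q s => Ψ (1, h i (0, mm q s)))
      (φ₂ i) := by
    intro i
    obtain ⟨c1, c2⟩ := hbas i ε (f2 i) D hm₀ hm₁ hDc (fun x hx => by
      obtain ⟨y, hy, hd⟩ := hDU x hx
      exact ⟨y, hy, hd.trans_le (hκ1 i)⟩)
    refine hhom (fun q s => G i (nu (mm q s))) _ _ ⟨_, c1, hcl i, c2⟩
      ⟨fun z => H i (1 - z.1, mm z.2.1 z.2.2) + (D.c z.2.2 - bp (fun p => F (K p))), ?_, ?_, ?_⟩
    · refine ContinuousOn.add ?_ (Continuous.continuousOn ?_)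
      · refine (hHc i).comp (Continuous.continuousOn ?_) ?_
        · exact (continuous_const.sub continuous_fst).prodMk (continuous_mm.comp continuous_snd)
        · rintro ⟨u, q, s⟩ hz
          have hz1 : 0 ≤ u ∧ u ≤ 1 := hz.1
          exact ⟨⟨by show (0 : ℝ) ≤ 1 - u; linarith, by show 1 - u ≤ (1 : ℝ); linarith⟩, mm_S2 _ _⟩
      · exact (hsc.comp (continuous_snd.comp continuous_snd)).sub continuous_const
    · intro q hq s hs
      constructor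
      · show H i (1 - 0, mm q s) + _ = G i (nu (mm q s)) + _
        rw [sub_zero, hH1 i _ (mm_S2 q s)]
      · show H i (1 - 1, mm q s) + _ = Ψ (1, h i (0, mm q s)) + _
        rw [sub_self, hH0 i _ (mm_S2 q s), k0' i _ (mm_S2 q s)]
    · intro u hu q hq s hs
      have hu' : 1 - u ∈ Icc (0 : ℝ) 1 := ⟨by linarith [hu.2], by linarith [hu.1]⟩
      refine ⟨hinU _ (hκ2 i (1 - u, mm q s) ⟨hu', mm_S2 q s⟩) s hs, fun hbd => ?_⟩
      show H i (1 - u, mm q s) + _ = _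
      rw [hmm q s hbd, hHb i _ hu']
      abel
  have hψs : ∀ i, CIsot I4 (ψ i) (ψ i) := fun i => hself _ _ (hψ i)
  choose ψ' hψ' j1 j2 using fun i => cex (ψ i) (hψs i)
  have hword : ∀ l, HasCl D (bp (fun p => F (K p)))
      (evS (bp (fun p => F (K p))) (fun i m => Ψ (1, h i (0, m))) l) (evD ψ ψ' l) := by
    intro l
    induction l with
    | nil => exact hnil
    | cons p l ih =>
      obtain ⟨i, b⟩ := p
      rcases b with _ | _
      · exact hcat (fun q s => Ψ (1, h i (0, mm (1 - q) s))) _ (ψ' i) (evD ψ ψ' l)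
          (hinv (fun q s => Ψ (1, h i (0, mm q s))) (ψ i) (ψ' i) (hψ i) (j1 i) (j2 i)) ih
      · exact hcat (fun q s => Ψ (1, h i (0, mm q s))) _ (ψ i) (evD ψ ψ' l) (hψ i) ih
  have hb : bp (fun p => F (K p)) = Ψ (1, F (bar (1 / 2))) := by rw [hΨ1, hbp]
  have hev : ∀ q s, evS (bp (fun p => F (K p))) (fun i m => Ψ (1, h i (0, m))) l q s =
      Ψ (1, evM (F (bar (1 / 2))) (fun i m => h i (0, m)) l q s) := by
    intro q s
    rw [hb, ← evS_evM]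
    exact evS_map (fun x => Ψ (1, x)) (F (bar (1 / 2))) (fun i m => h i (0, m)) l q s
  have hfin : HasCl D (bp (fun p => F (K p))) (fun _ _ => bp (fun p => F (K p)))
      (evD ψ ψ' l) := by
    refine hhom _ _ _ (hword l)
      ⟨fun z => Ψ (1, N z) + (D.c z.2.2 - bp (fun p => F (K p))), ?_, ?_, ?_⟩
    · rw [hm₀, hm₁]
      refine ContinuousOn.add (hΨc.comp_continuousOn (continuousOn_const.prodMk hN))
        (Continuous.continuousOn ?_)
      exact (hsc.comp (continuous_snd.comp continuous_snd)).sub continuous_const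
    · intro q hq s hs
      rw [hm₀, hm₁] at hs
      obtain ⟨a1, a2⟩ := hN01 q hq s hs
      constructor
      · show Ψ (1, N (0, q, s)) + _ = evS _ _ l q s + _
        rw [a1, hev]
      · show Ψ (1, N (1, q, s)) + _ = bp (fun p => F (K p)) + _
        rw [a2, hb]
    · intro u hu q hq s hs
      have hs' := hs
      rw [hm₀, hm₁] at hs'
      refine ⟨hinU _ (hκ3 (u, q, s) ⟨hu, hq, hs'⟩) s hs, fun hbd => ?_⟩
      rw [hm₀, hm₁] at hbd
      show Ψ (1, N (u, q, s)) + _ = _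
      rw [(hNoff u hu q hq s hs').2 hbd, ← hb]
      abel
  have hor2 : R.RW W (fun x => x) (evD ψ ψ' l) := hrel W _ _ _ hW hfin hnil
  have hψs' : ∀ i, CIsot I4 (ψ' i) (ψ' i) := fun i => cinv _ _ _ _ (hψs i) (j1 i) (j1 i)
  have sD := evD_self hCI hψs hψs' l
  refine ⟨ψ, ψ', j1, j2, hψs, fun i hi => ?_, fun x hx => ?_, ?_⟩
  · have r1 : R.RW W (ψ i) (φ₂ ⟨i, hi⟩) := hrel W _ _ _ hW (hgen ⟨i, hi⟩) (hψ i)
    have r2 : R.RW W (φ₂ ⟨i, hi⟩) (φ i) := hor ⟨i, hi⟩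
    exact rw_trans hT2 hCI hW (tself _ _ (hG0 i hi).2.2.1) r1 r2
  · have r1 : R.RW W (ψ x.2) (ψ x.1) := hdr ⟨x, hx⟩ ε (f4 ⟨x, hx⟩) D hHD (fun y hy => by
      obtain ⟨w, hw, hd⟩ := hDU y hy
      exact ⟨w, hw, hd.trans_le (hκ4 ⟨x, hx⟩)⟩) W _ _ hW (hψ x.1) (hψ x.2)
    exact rw_symm hT2 hCI hW (hψs x.1) r1
  · exact rw_symm hT2 hCI hW sD hor2

end Pool.Agent.Helper18.BI.S5
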