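import Pool.Agent.Helper18.BI.R.AsmR6
import Pool.Agent.Helper18.BI.S5.M_FIN8
import Pool.Agent.Helper18.BI.S5.M_HATK
import Pool.Agent.Helper18.BI.S5.M_REL6
import Pool.Agent.Helper79.BI5.M_SQS
import Pool.Agent.Helper95.BI5.M_GP1
import Pool.Agent.Helper4.BI5.M_EX
import Pool.Agent.Helper34.BI5.VK8
import Pool.Agent.Helper34.BI5.M_CRL

/-!
# Project BI, stage 5: assembly of the final theorem from the crossing lemma
-/

set_option autoImplicit false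

open Pool.Agent.Helper18.BI Pool.Agent.Helper65.Barb
open Pool.Agent.Helper70.BI (hMain2 hW4 hX2c hEI hR3real hMWL exists_isW')
open Pool.Agent.Helper18.BI.H (hArcH hHMain hNORM)
open Pool.Agent.Helper18.BI.R

namespace Pool.Agent.Helper18.BI.S5

theorem hEX : StEX := m_EX m_SQS m_GP1 Pool.Agent.Helper27.H.hCls

theorem hDRIFT_of (hCRL : Pool.Agent.Helper34.S5.StCRL) : StDRIFT :=
  Pool.Agent.Helper34.S5.m_DRIFT hHCL hT2 hCI hEX hCRL

theorem hRelS6_of (hCRL : Pool.Agent.Helper34.S5.StCRL) : StRelS6 :=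
  m_RELS6 (m_REL6 m_STR2 m_MOVE hFREE m_HATK m_BAS m_NRB hHCL hEX (hDRIFT_of hCRL) hMWL hT2 hCI)
    hREP (m_WRD m_MQ) m_EVM hW4 hEI hX2c hR3real hA1 hS4 hX1 hX3 hT2 hCI

/-- the main theorem of stage 5, from the crossing lemma -/
theorem hFinal8_of (hCRL : Pool.Agent.Helper34.S5.StCRL) : StFinal8 := by
  obtain ⟨W, hW⟩ := exists_isW'
  exact m_FIN8 (m_PARS hPAR4 hEI hX2c hX1 hX3 hT4 hS4 hCI) (hRelS6_of hCRL)
    (m_NULS hNULC Pool.Agent.Helper34.BI.H.m_SMH hS4 hT2 hT4 hX1 hX2c hX3 hEI hCI) hEXC hUNK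
    Pool.Agent.Helper34.BI.R.m_LIP Pool.Agent.Helper27.BI.hR2sw hT4 hT2 hCI hW

/-- the main theorem of stage 5, from the nice form of the crossing lemma -/
theorem hFinal8_of_CRN (hCRN : Pool.Agent.Helper34.S5.StCRN) : StFinal8 :=
  hFinal8_of (Pool.Agent.Helper34.S5.m_CRL hHCL hT2 hCI hEX hCRN)

end Pool.Agent.Helper18.BI.S5
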