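import Pool.Agent.Helper18.BI.R.FinDefs3

/-!
# Barbells in the 4-sphere: definitions used in the statements about the action of the fundamental group

The second homotopy group `Pi2`, the relation `IsClass` between barbells and its elements and the other notions
used here are in `Pool.Agent.Helper18.BI.R.FinDefs3` and the files imported there.
-/

set_option autoImplicit false

open scoped Manifold ContDiff ComplexConjugate
open Pool.Agent.Helper65.Barb
open Pool.Agent.Helper70.Fin (Emb coreSphere)
open Pool.Agent.Helper18.FinR (Pi2 FreeClass)
open Pool.Agent.Helper18.FinS

namespace Pool.Agent.Helper18.FinT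

/-- The quotients `x * x'⁻¹` of elements of the second homotopy group of the complement of the fixed cuff of `B`
which are freely homotopic: some (arbitrary, not necessarily injective) map of the sphere to the complement is
freely homotopic to based maps of class `x` and of class `x'`.  These are the elements `x * (g • x)⁻¹` for `g` in
the fundamental group of the complement. -/
def Drift (B : Emb) (y₀ : Off B) : Set (Pi2 (fixedCuff B) y₀) :=
  {v | ∃ (k : R4 → S4) (x x' : Pi2 (fixedCuff B) y₀), FreeClass (fixedCuff B) y₀ k x ∧
    FreeClass (fixedCuff B) y₀ k x' ∧ v = x * x'⁻¹}

/-- The smallest class of barbells which contains the barbells with unknotted moved cuff and is closed under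

* exchanging the two cuffs (with any bar),
* sums: `B` is in the class if the class of its moved cuff in the second homotopy group of the complement of
  the fixed cuff is in the subgroup generated by the classes of the moved cuffs of finitely many barbells of the
  class with the same fixed cuff, the class of the parallel copy of the fixed cuff and the quotients of freely
  homotopic elements. -/
inductive Elementary : Emb → Prop
  | unknotted (B : Emb) : IsBarbell B → MovedUnknotted B → Elementary B
  | exchange (B B' : Emb) : Elementary B → IsBarbell B' → Exchanged B B' → Elementary B'
  | sum (B : Emb) (y₀ : Off B) (n : ℕ) (C : Fin n → Emb) (w : Fin n → Pi2 (fixedCuff B) y₀)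
      (z : Pi2 (fixedCuff B) y₀) : IsBarbell B → IsBase B y₀ → (∀ i, Elementary (C i)) →
      (∀ i, SameFixed B (C i)) → (∀ i, IsClass B y₀ (C i) (w i)) →
      z ∈ gen (Set.range w ∪ {v | IsParallelClass B y₀ v} ∪ Drift B y₀) →
      IsClass B y₀ B z → Elementary B

/-- The classes of the moved cuffs of the elementary barbells with the same fixed cuff as `B`, and the class
of the parallel copy of the fixed cuff. -/
def ElementaryClasses (B : Emb) (y₀ : Off B) : Set (Pi2 (fixedCuff B) y₀) :=
  {z | (∃ B' : Emb, Elementary B' ∧ SameFixed B B' ∧ IsClass B y₀ B' z) ∨ IsParallelClass B y₀ z}

end Pool.Agent.Helper18.FinT
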