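import Pool.Agent.Helper18.BI.S5.M_RELS6
import Pool.Agent.Helper18.BI.S5.FinDefs8
import Pool.Agent.Helper18.BI.R.M_FIN5

/-!
# Project BI, stage 5: the final theorem
-/

set_option autoImplicit false
set_option linter.unusedSectionVars false

open scoped Manifold ContDiff Topology ComplexConjugate unitInterval
open Set Filter Pool.Agent.Helper65.Barb Pool.Agent.Helper18.BI
open Pool.Agent.Helper27.BI (swp StR2sw)
open Pool.Agent.Helper34.BI (swp_swp swp_mem_SP isLocalDiffeomorphAt_swp)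
open Pool.Agent.Helper70.BI (I4 IsW StEI StX2c)
open Pool.Agent.Helper70.BI.Fin2 (SP_sub_NB)
open Pool.Agent.Helper18.BI.H (IsW4)
open Pool.Agent.Helper70.Fin (Emb coreSphere)
open Pool.Agent.Helper18.FinR (sqr Pi2 cls FreeClass)
open Pool.Agent.Helper18.BI.R
open Pool.Agent.Helper18.BI.R.FIN4
open Pool.Agent.Helper18.BI.S5.RELS6 (evD_rw4 r_inv)

namespace Pool.Agent.Helper18.BI.S5

namespace FIN6

/-- approximation of an arbitrary map of the sphere by a Lipschitz map -/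
theorem lip_map (hLIP : StLIP) {A : Set S4} {y₀ : {x : S4 // x ∉ A}} (hA : IsCompact A)
    {k : R4 → S4} {x x' : Pi2 A y₀} (hx : FreeClass A y₀ k x) (hx' : FreeClass A y₀ k x') :
    ∃ k' : R4 → S4, (∃ L : NNReal,
      LipschitzOnWith L (fun m : R3 => k' (1 / 2, (1 / 5 : ℝ) • m)) S2) ∧
      FreeClass A y₀ k' x ∧ FreeClass A y₀ k' x' := by
  have hc : IsCompact (coreSphere 0) := by
    rw [RELS.coreSphere_eq]
    exact RELS.isCompact_sph 0
  have hk : ContinuousOn k (coreSphere 0) ∧ ∀ p ∈ coreSphere 0, k p ∉ A := by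
    obtain ⟨f, h, -, h1, -, h3, h4⟩ := hx
    constructor
    · refine ContinuousOn.congr (f := fun p => h (1, p)) ?_ fun p hp => (h3 p hp).symm
      exact h1.comp (Continuous.continuousOn (by fun_prop)) fun p hp => ⟨⟨zero_le_one, le_rfl⟩, hp⟩
    · intro p hp
      rw [← h3 p hp]
      exact h4 1 ⟨zero_le_one, le_rfl⟩ p hp
  obtain ⟨g, H, ⟨L, hL⟩, hHc, hH01, hHoff, -⟩ := hLIP R4 (coreSphere 0) ∅ A k hc (empty_subset _)
    hA hk.1 ⟨0, fun _ h => h.elim⟩ hk.2
  refine ⟨g, ?_, free_trans hx H hHc (fun p hp => (hH01 p hp).1) (fun p hp => (hH01 p hp).2) hHoff,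
    free_trans hx' H hHc (fun p hp => (hH01 p hp).1) (fun p hp => (hH01 p hp).2) hHoff⟩
  have h1 : LipschitzWith 1 (fun m : R3 => ((1 / 2, (1 / 5 : ℝ) • m) : R4)) := by
    refine LipschitzWith.of_dist_le_mul fun m m' => ?_
    rw [Prod.dist_eq, dist_self]
    show max 0 (dist ((1 / 5 : ℝ) • m) ((1 / 5 : ℝ) • m')) ≤ _
    rw [dist_smul₀, NNReal.coe_one, one_mul, max_le_iff]
    refine ⟨dist_nonneg, ?_⟩
    have : ‖(1 / 5 : ℝ)‖ ≤ 1 := by norm_num
    exact mul_le_of_le_one_left dist_nonneg this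
  refine ⟨L * 1, hL.comp h1.lipschitzOnWith ?_⟩
  intro m hm
  rw [RELS.coreSphere_eq]
  exact cuff_mem hm

theorem rel_free6 (hT2 : StT2) (hCI : StCI) {W : S4 → S4} (hW : IsW4 W) (hRel : RelS6 W)
    {B : R4 → S4} {A : Set S4} {y₀ : {x : S4 // x ∉ A}} (hB : EmbOn (𝓡 4) B SP)
    (hA : A = B '' sph 1) (hy : (y₀ : S4) = B (1 / 2, (1 / 2, 0))) {ι J : Type}
    (G : ι → R4 → S4) (φ : ι → Equiv.Perm S4) (z : ι → Pi2 A y₀) (hF : Fam B A y₀ G φ z)
    (k : J → R4 → S4) (x x' : J → Pi2 A y₀)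
    (hk : ∀ j, ∃ L : NNReal, LipschitzOnWith L (fun m : R3 => k j (1 / 2, (1 / 5 : ℝ) • m)) S2)
    (hx : ∀ j, FreeClass A y₀ (k j) (x j)) (hx' : ∀ j, FreeClass A y₀ (k j) (x' j))
    (w₁ : FreeGroup ι) (w₂ : FreeGroup J)
    (hw : FreeGroup.lift z w₁ = FreeGroup.lift (fun j => x j * (x' j)⁻¹) w₂) :
    RW4 W (⇑(FreeGroup.lift φ w₁)) (fun x => x) := by
  classical
  obtain ⟨cid, cs, cself, ct, cc, cinv, cex, cconj, ciso, -⟩ := hCI _ _ (𝓡 4) S4
  have tself := (hT2 _ _ (𝓡 4) S4).2.2.2.2.2.2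
  choose U hU hsU hE using hF.near
  let K : ι ⊕ (J × Bool) → R4 → S4 := Sum.elim G (fun p => k p.1)
  let Z : ι ⊕ (J × Bool) → Pi2 A y₀ := Sum.elim z (fun p => if p.2 then x p.1 else x' p.1)
  let φ₀ : ι ⊕ (J × Bool) → S4 → S4 := Sum.elim (fun i => ⇑(φ i)) (fun _ => id)
  let U' : ι ⊕ (J × Bool) → Set R4 := Sum.elim U (fun _ => univ)
  let θ : FreeGroup J →* FreeGroup (ι ⊕ (J × Bool)) := FreeGroup.lift fun j =>
    FreeGroup.of (Sum.inr (j, true)) * (FreeGroup.of (Sum.inr (j, false)))⁻¹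
  let w : FreeGroup (ι ⊕ (J × Bool)) := FreeGroup.map Sum.inl w₁ * (θ w₂)⁻¹
  have hm1 : (FreeGroup.lift Z).comp (FreeGroup.map Sum.inl) = FreeGroup.lift z := by
    ext i
    simp [Z]
  have hm2 : (FreeGroup.lift Z).comp θ = FreeGroup.lift (fun j => x j * (x' j)⁻¹) := by
    ext j
    simp [Z, θ]
  have hZw : FreeGroup.lift Z w = 1 := by
    have e1 := DFunLike.congr_fun hm1 w₁
    have e2 := DFunLike.congr_fun hm2 w₂
    rw [MonoidHom.comp_apply] at e1 e2
    show FreeGroup.lift Z (FreeGroup.map Sum.inl w₁ * (θ w₂)⁻¹) = 1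
    rw [map_mul, map_inv, e1, e2, hw, mul_inv_cancel]
  let l : List ((ι ⊕ (J × Bool)) × Bool) := w.toWord.reverse
  have hlw : FreeGroup.mk l.reverse = w := by
    show FreeGroup.mk w.toWord.reverse.reverse = w
    rw [List.reverse_reverse, FreeGroup.mk_toWord]
  let e : Fin l.length → ι ⊕ (J × Bool) := fun k => (l.get k).1
  let l' : List (Fin l.length × Bool) := List.ofFn fun k => (k, (l.get k).2)
  have hl' : l'.map (fun p => (e p.1, p.2)) = l := by
    show (List.ofFn fun k => (k, (l.get k).2)).map (fun p => (e p.1, p.2)) = l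
    rw [List.map_ofFn]
    exact List.ofFn_get l
  have hmap : (l'.map fun p => if p.2 then Z (e p.1) else (Z (e p.1))⁻¹) =
      l.map fun p => if p.2 then Z p.1 else (Z p.1)⁻¹ := by
    conv_rhs => rw [← hl']
    rw [List.map_map]
    rfl
  have hprod : (l'.map fun p => if p.2 then Z (e p.1) else (Z (e p.1))⁻¹).prod = 1 := by
    rw [hmap]
    have h1 : FreeGroup.lift Z (FreeGroup.mk w.toWord) = 1 := by rw [FreeGroup.mk_toWord, hZw]
    rw [FreeGroup.lift_mk] at h1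
    rw [show l = w.toWord.reverse from rfl, List.map_reverse, prod_rev pi2_comm, ← h1]
    congr 1
    apply List.map_congr_left
    rintro ⟨i, b⟩ _
    rcases b with _ | _ <;> rfl
  obtain ⟨ψ, ψ', j1, j2, hs, hG, hP, hfin⟩ := hRel l.length B {a | ∃ i, e a = Sum.inl i}
    {p | K (e p.1) = K (e p.2)} (fun a => K (e a)) (fun a => φ₀ (e a)) (⋂ a, U' (e a)) A y₀
    (fun a => Z (e a)) l' hB
    (isOpen_iInter_of_finite fun a => by
      rcases h : e a with i | p
      · exact hU i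
      · exact isOpen_univ)
    (subset_iInter fun a => by
      rcases h : e a with i | p
      · exact hsU i
      · exact subset_univ _)
    (by
      rintro a ⟨i, hi⟩
      have h2 : ∀ p ∈ (⋂ a, U' (e a)), p ∈ U i := fun p hp => by
        have h3 := mem_iInter.1 hp a
        rw [hi] at h3
        exact h3
      show EmbOn (𝓡 4) (K (e a)) SP ∧ EqOn B (K (e a)) (⋂ a, U' (e a)) ∧
        Thin (𝓡 4) (K (e a)) (φ₀ (e a))
      rw [hi]
      exact ⟨hF.emb i, fun p hp => hE i (h2 p hp), hF.thin i⟩)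
    (fun a => by
      show ∃ L : NNReal, LipschitzOnWith L (fun m : R3 => K (e a) (1 / 2, (1 / 5 : ℝ) • m)) S2
      rcases h : e a with i | p
      · exact RELS.cuff_lip (G i) (hF.emb i)
      · exact hk p.1)
    (fun p hp y _ => congrFun hp y) hA hy
    (fun a => by
      show FreeClass A y₀ (K (e a)) (Z (e a))
      rcases h : e a with i | ⟨j, b⟩
      · exact hF.free i
      · rcases b with _ | _
        · exact hx' j
        · exact hx j)
    hprod
  -- diffeomorphisms for the letters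
  let χ : J → Equiv.Perm S4 := fun j =>
    if h : ∃ a, K (e a) = k j then ⟨ψ h.choose, ψ' h.choose, j2 _, j1 _⟩ else 1
  let Ψ : ι ⊕ (J × Bool) → Equiv.Perm S4 := Sum.elim φ (fun p => χ p.1)
  have hΨ : ∀ a, RW4 W (⇑(Ψ (e a))) (ψ a) := by
    intro a
    rcases h : e a with i | p
    · have h1 : RW4 W (ψ a) (φ₀ (e a)) := hG a ⟨i, h⟩
      rw [h] at h1
      exact r_symm hCI hW (tself _ _ (hF.thin i)) h1
    · have h0 : ∃ a, K (e a) = k p.1 := ⟨a, by rw [h]; rfl⟩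
      have h1 : χ p.1 = ⟨ψ h0.choose, ψ' h0.choose, j2 _, j1 _⟩ := dif_pos h0
      have h2 : (⇑(Ψ (Sum.inr p)) : S4 → S4) = ψ h0.choose := by
        show (⇑(χ p.1) : S4 → S4) = _
        rw [h1]
        rfl
      rw [h2]
      refine hP (h0.choose, a) ?_
      show K (e h0.choose) = K (e a)
      rw [h0.choose_spec, h]
      rfl
  have hψ's : ∀ i, CIsot (𝓡 4) (ψ' i) (ψ' i) := fun i => cinv _ _ _ _ (hs i) (j1 i) (j1 i)
  have h1 := evD_rw4 hCI hW hs hψ's hΨ (fun a => r_inv hCI hW (φ := ⇑(Ψ (e a)))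
    (φ' := ⇑(Ψ (e a))⁻¹) (hΨ a) (hs a) (fun x => (Ψ (e a)).apply_symm_apply x) (j1 a)) l'
  have h2 : (⇑(FreeGroup.lift Ψ w) : S4 → S4) =
      evD (fun i => ⇑(Ψ (e i))) (fun i => ⇑(Ψ (e i))⁻¹) l' := by
    funext x
    rw [← comp_word Ψ l e l' hl' x, hlw]
  have h3 : RW4 W (⇑(FreeGroup.lift Ψ w)) (fun x => x) := by
    rw [h2]
    exact r_trans hCI hW cid h1 hfin
  have hn1 : (FreeGroup.lift Ψ).comp (FreeGroup.map Sum.inl) = FreeGroup.lift φ := by
    ext i
    simp [Ψ]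
  have hn2 : (FreeGroup.lift Ψ).comp θ = 1 := by
    ext j
    simp [Ψ, θ]
  have e1 := DFunLike.congr_fun hn1 w₁
  have e2 := DFunLike.congr_fun hn2 w₂
  rw [MonoidHom.comp_apply] at e1 e2
  have h4 : FreeGroup.lift Ψ w = FreeGroup.lift φ w₁ := by
    show FreeGroup.lift Ψ (FreeGroup.map Sum.inl w₁ * (θ w₂)⁻¹) = _
    rw [map_mul, map_inv, e1, e2, MonoidHom.one_apply, inv_one, mul_one]
  rw [h4] at h3
  exact h3

/-- quotients of freely homotopic elements -/
def DriftR (A : Set S4) (y₀ : {x : S4 // x ∉ A}) : Set (Pi2 A y₀) :=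
  {v | ∃ (k : R4 → S4) (x x' : Pi2 A y₀), FreeClass A y₀ k x ∧ FreeClass A y₀ k x' ∧
    v = x * x'⁻¹}

/-- in a commutative group, elements of a closure of a union -/
theorem closure_union {A : Set S4} {y₀ : {x : S4 // x ∉ A}} {S T : Set (Pi2 A y₀)}
    {z : Pi2 A y₀} (hz : z ∈ Subgroup.closure (S ∪ T)) :
    ∃ t ∈ Subgroup.closure S, ∃ d ∈ Subgroup.closure T, z = t * d := by
  refine Subgroup.closure_induction
    (p := fun z _ => ∃ t ∈ Subgroup.closure S, ∃ d ∈ Subgroup.closure T, z = t * d)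
    ?_ ?_ ?_ ?_ hz
  · rintro v (hv | hv)
    · exact ⟨v, Subgroup.subset_closure hv, 1, one_mem _, (mul_one v).symm⟩
    · exact ⟨1, one_mem _, v, Subgroup.subset_closure hv, (one_mul v).symm⟩
  · exact ⟨1, one_mem _, 1, one_mem _, (mul_one 1).symm⟩
  · rintro a b _ _ ⟨t, ht, d, hd, rfl⟩ ⟨t', ht', d', hd', rfl⟩
    refine ⟨t * t', mul_mem ht ht', d * d', mul_mem hd hd', ?_⟩
    rw [mul_assoc, mul_assoc, ← mul_assoc d, ← mul_assoc t', pi2_comm d t']
  · rintro a _ ⟨t, ht, d, hd, rfl⟩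
    exact ⟨t⁻¹, inv_mem ht, d⁻¹, inv_mem hd, by rw [mul_inv_rev, pi2_comm]⟩

/-- existence of the homomorphism, for germs, with the triviality on freely homotopic elements -/
theorem exists_hom6 (hLIP : StLIP) (hT2 : StT2) (hCI : StCI) {W : S4 → S4} (hW : IsW4 W)
    (hRel6 : RelS6 W) {B : R4 → S4} {A : Set S4} {y₀ : {x : S4 // x ∉ A}}
    (hB : EmbOn (𝓡 4) B SP) (hA : A = B '' sph 1) (hy : (y₀ : S4) = B (1 / 2, (1 / 2, 0))) :
    ∃ Φ : Pi2 A y₀ → S4 → S4, (∀ z, CIsot (𝓡 4) (Φ z) (Φ z)) ∧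
      (∀ z ∈ Subgroup.closure (RepG B A y₀), ∀ z' ∈ Subgroup.closure (RepG B A y₀),
        RW4 W (Φ (z * z')) (fun x => Φ z (Φ z' x))) ∧
      (∀ (G : R4 → S4) (φ : S4 → S4) (z : Pi2 A y₀), EmbOn (𝓡 4) G SP →
        (∃ U : Set R4, IsOpen U ∧ sph 1 ⊆ U ∧ EqOn B G U) → Thin (𝓡 4) G φ →
        FreeClass A y₀ G z → RW4 W φ (Φ z)) ∧
      ∀ T : Set (Pi2 A y₀), T ⊆ RepG B A y₀ → (∀ z ∈ T, RW4 W (Φ z) (fun x => x)) →
        ∀ z ∈ Subgroup.closure (RepG B A y₀), z ∈ Subgroup.closure (T ∪ DriftR A y₀) →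
          RW4 W (Φ z) (fun x => x) := by
  classical
  have hRel := RELS6.rels_of_rels6 hT2 hCI hW hRel6
  obtain ⟨cid, cs, cself, ct, cc, cinv, cex, cconj, ciso, -⟩ := hCI _ _ (𝓡 4) S4
  have tself := (hT2 _ _ (𝓡 4) S4).2.2.2.2.2.2
  have hAc : IsCompact A := by
    rw [hA]
    refine (RELS.isCompact_sph 1).image_of_continuousOn fun p hp => ?_
    exact (hB.1 p (RELS.sph1_sub hp)).contMDiffAt.continuousAt.continuousWithinAt
  choose G φ hG1 hG2 hG3 hG4 using fun z : {z // z ∈ RepG B A y₀} => z.2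
  have hφs : ∀ i, CIsot (𝓡 4) (⇑(φ i)) (φ i) := fun i => tself _ _ (hG3 i)
  have hrange : ∀ (S : Set (Pi2 A y₀)), ∀ z ∈ Subgroup.closure S,
      ∃ w : FreeGroup {z // z ∈ S}, FreeGroup.lift (fun i => i.1) w = z := by
    intro S z hz
    have h1 : (FreeGroup.lift (fun i : {z // z ∈ S} => i.1)).range = Subgroup.closure S := by
      rw [FreeGroup.range_lift_eq_closure, Subtype.range_coe]
    rw [← h1] at hz
    exact hz
  let Φ : Pi2 A y₀ → S4 → S4 := fun z =>
    if h : ∃ w : FreeGroup {z // z ∈ RepG B A y₀}, FreeGroup.lift (fun i => i.1) w = z then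
      FreeGroup.lift φ h.choose else fun x => x
  have hΦ : ∀ z ∈ Subgroup.closure (RepG B A y₀), ∃ w : FreeGroup {z // z ∈ RepG B A y₀},
      FreeGroup.lift (fun i => i.1) w = z ∧ Φ z = FreeGroup.lift φ w := by
    intro z hz
    have h := hrange _ z hz
    exact ⟨h.choose, h.choose_spec, dif_pos h⟩
  have hΦs : ∀ z, CIsot (𝓡 4) (Φ z) (Φ z) := by
    intro z
    by_cases h : ∃ w : FreeGroup {z // z ∈ RepG B A y₀}, FreeGroup.lift (fun i => i.1) w = z
    · have e : Φ z = FreeGroup.lift φ h.choose := dif_pos h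
      rw [e]
      exact free_self hCI φ hφs _
    · have e : Φ z = fun x => x := dif_neg h
      rw [e]
      exact cid
  have hmul : ∀ z ∈ Subgroup.closure (RepG B A y₀), ∀ z' ∈ Subgroup.closure (RepG B A y₀),
      RW4 W (Φ (z * z')) (fun x => Φ z (Φ z' x)) := by
    intro z hz z' hz'
    obtain ⟨w₁, h1, e1⟩ := hΦ z hz
    obtain ⟨w₂, h2, e2⟩ := hΦ z' hz'
    obtain ⟨w₃, h3, e3⟩ := hΦ (z * z') (mul_mem hz hz')
    have h := rel_free hRel hB hA hy G φ (fun i => i.1) ⟨hG1, hG2, hG3, hG4⟩ (w₃⁻¹ * (w₁ * w₂))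
      (by rw [map_mul, map_mul, map_inv, h1, h2, h3, inv_mul_cancel])
    rw [← rw4_iff hCI, map_mul, map_mul, map_inv] at h
    rw [e1, e2, e3]
    refine r_symm hCI hW (free_self hCI φ hφs w₃) ?_
    exact r_cancel hCI hW (φ := ⇑(FreeGroup.lift φ w₃)) (φ' := ⇑(FreeGroup.lift φ w₃)⁻¹)
      (free_self hCI φ hφs w₃) (fun x => (FreeGroup.lift φ w₃).apply_symm_apply x) h
  refine ⟨Φ, hΦs, hmul, ?_, ?_⟩
  · intro G' φ₀ z hG' hU' hT' hfr
    have s0 := tself _ _ hT'
    obtain ⟨φ₀', -, i1, i2⟩ := cex φ₀ s0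
    let P : Equiv.Perm S4 := ⟨φ₀, φ₀', i2, i1⟩
    have hz : z ∈ RepG B A y₀ := ⟨G', P, hG', hU', hT', hfr⟩
    obtain ⟨w, h1, e1⟩ := hΦ z (Subgroup.subset_closure hz)
    let G₂ : Option {z // z ∈ RepG B A y₀} → R4 → S4 := fun o => o.elim G' G
    let φ₂ : Option {z // z ∈ RepG B A y₀} → Equiv.Perm S4 := fun o => o.elim P φ
    let z₂ : Option {z // z ∈ RepG B A y₀} → Pi2 A y₀ := fun o => o.elim z (fun i => i.1)
    have hF2 : Fam B A y₀ G₂ φ₂ z₂ := by
      refine ⟨?_, ?_, ?_, ?_⟩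
      · rintro (_ | i)
        · exact hG'
        · exact hG1 i
      · rintro (_ | i)
        · exact hU'
        · exact hG2 i
      · rintro (_ | i)
        · exact hT'
        · exact hG3 i
      · rintro (_ | i)
        · exact hfr
        · exact hG4 i
    have hm1 : (FreeGroup.lift z₂).comp (FreeGroup.map some) =
        FreeGroup.lift (fun i : {z // z ∈ RepG B A y₀} => i.1) := by
      ext i
      simp [z₂]
    have hm2 : (FreeGroup.lift φ₂).comp (FreeGroup.map some) = FreeGroup.lift φ := by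
      ext i
      simp [φ₂]
    have hm1' := DFunLike.congr_fun hm1 w
    have hm2' := DFunLike.congr_fun hm2 w
    rw [MonoidHom.comp_apply] at hm1' hm2'
    have h := rel_free hRel hB hA hy G₂ φ₂ z₂ hF2 ((FreeGroup.of none)⁻¹ * FreeGroup.map some w)
      (by
        rw [map_mul, map_inv, hm1', h1, FreeGroup.lift_apply_of]
        exact inv_mul_cancel z)
    rw [← rw4_iff hCI, map_mul, map_inv, hm2', FreeGroup.lift_apply_of] at h
    rw [e1]
    have h3 : RW4 W (⇑(FreeGroup.lift φ w)) φ₀ := r_cancel hCI hW (φ := φ₀) (φ' := φ₀') s0 i1 h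
    exact r_symm hCI hW s0 h3
  · -- the elements of the closure of the quotients of freely homotopic elements
    have hdr : ∀ z ∈ Subgroup.closure (RepG B A y₀), z ∈ Subgroup.closure (DriftR A y₀) →
        RW4 W (Φ z) (fun x => x) := by
      intro z hz hz'
      obtain ⟨w₁, h1, e1⟩ := hΦ z hz
      obtain ⟨w₂, h2⟩ := hrange _ z hz'
      have hj : ∀ v : {v // v ∈ DriftR A y₀}, ∃ (k' : R4 → S4) (x x' : Pi2 A y₀),
          (∃ L : NNReal, LipschitzOnWith L (fun m : R3 => k' (1 / 2, (1 / 5 : ℝ) • m)) S2) ∧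
          FreeClass A y₀ k' x ∧ FreeClass A y₀ k' x' ∧ v.1 = x * x'⁻¹ := by
        rintro ⟨v, k, x, x', hx, hx', hv⟩
        obtain ⟨k', hk', hx1, hx2⟩ := lip_map hLIP hAc hx hx'
        exact ⟨k', x, x', hk', hx1, hx2, hv⟩
      choose k x x' hk hx hx' hv using hj
      rw [e1]
      refine rel_free6 hT2 hCI hW hRel6 hB hA hy G φ (fun i => i.1) ⟨hG1, hG2, hG3, hG4⟩ k x x'
        hk hx hx' w₁ w₂ ?_
      rw [h1, ← h2]
      congr 1
      congr 1
      funext v
      exact hv v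
    intro T hTR hT z hz hz'
    obtain ⟨t, ht, d, hd, rfl⟩ := closure_union hz'
    have ht' := Subgroup.closure_mono hTR ht
    have hd' : d ∈ Subgroup.closure (RepG B A y₀) := by
      have h1 := mul_mem (inv_mem ht') hz
      rwa [inv_mul_cancel_left] at h1
    have h1 : RW4 W (Φ t) (fun x => x) := by
      refine Subgroup.closure_induction
        (p := fun z _ => RW4 W (Φ z) (fun x => x)) hT ?_ ?_ ?_ ht
      · exact hdr 1 (one_mem _) (one_mem _)
      · intro a b ha hb iha ihb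
        have h3 := hmul a (Subgroup.closure_mono hTR ha) b (Subgroup.closure_mono hTR hb)
        exact r_trans hCI hW cid h3 (RELS6.r_comp (φ := Φ b) (ψ := Φ a) (φ' := fun x => x)
          (ψ' := fun x => x) hCI hW cid cid ihb iha)
      · intro a ha iha
        have h3 := hmul a (Subgroup.closure_mono hTR ha) a⁻¹
          (inv_mem (Subgroup.closure_mono hTR ha))
        rw [mul_inv_cancel] at h3
        have h4 : RW4 W (fun x => Φ a (Φ a⁻¹ x)) (fun x => x) :=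
          r_trans hCI hW cid (r_symm hCI hW (cc _ _ _ _ (hΦs a) (hΦs a⁻¹)) h3)
            (hdr 1 (one_mem _) (one_mem _))
        have h5 : RW4 W (fun x => Φ a (Φ a⁻¹ x)) (Φ a⁻¹) := RELS6.r_comp (φ := Φ a⁻¹) (ψ := Φ a)
          (φ' := Φ a⁻¹) (ψ' := fun x => x) hCI hW (hΦs _) cid (Or.inl (hΦs _)) iha
        exact r_trans hCI hW cid (r_symm hCI hW (hΦs _) h5) h4
    exact r_trans hCI hW cid (hmul t ht' d hd') (RELS6.r_comp (φ := Φ d) (ψ := Φ t)
      (φ' := fun x => x) (ψ' := fun x => x) hCI hW cid cid (hdr d hd' hd) h1)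

end FIN6

end Pool.Agent.Helper18.BI.S5
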