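import Pool.Agent.Helper18.BI.S5.StB

/-!
# Project BI, stage 5, module RELS6: the relation theorem in the 4-sphere, for arbitrary spheres
-/

set_option autoImplicit false
set_option linter.unusedSectionVars false

open scoped Manifold ContDiff Topology ComplexConjugate unitInterval
open Set Filter Pool.Agent.Helper65.Barb Pool.Agent.Helper18.BI
open Pool.Agent.Helper70.BI (I4 IsW StW4 StEI StX2c)
open Pool.Agent.Helper18.BI.H (IsW4)
open Pool.Agent.Helper18.BI.H.F3 (invFun_continuousAt)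
open Pool.Agent.Helper70.Fin (coreSphere)
open Pool.Agent.Helper18.FinR (sqr Pi2 cls FreeClass UpTo)
open Pool.Agent.Helper18.BI.R
open Pool.Agent.Helper18.BI.R.RELS
open Pool.Agent.Helper18.BI.R.FIN4 (RW4 c_iff r_symm r_trans Wcomm W2)

namespace Pool.Agent.Helper18.BI.S5

namespace RELS6

section
variable {W : S4 → S4} (hCI : StCI) (hW : IsW4 W)
include hCI hW

theorem r_comp {φ φ' ψ ψ' : S4 → S4} (hφ : CIsot (𝓡 4) φ' φ') (hψ : CIsot (𝓡 4) ψ' ψ')
    (h : RW4 W φ φ') (h' : RW4 W ψ ψ') : RW4 W (fun x => ψ (φ x)) (fun x => ψ' (φ' x)) := by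
  obtain ⟨cid, cs, cself, ct, cc, -⟩ := hCI _ _ (𝓡 4) S4
  have hWW := FIN4.WW hCI hW
  have V2 : CIsot (𝓡 4) (fun x => ψ' (W (φ' x))) (fun x => W (ψ' (φ' x))) :=
    cc (fun x => ψ' (W x)) (fun x => W (ψ' x)) φ' φ' (Wcomm hCI hW hψ) hφ
  rcases h with h | h
  · rcases h' with h' | h'
    · exact Or.inl (cc ψ ψ' φ φ' h' h)
    · exact Or.inr (cc ψ (fun x => W (ψ' x)) φ φ' h' h)
  · rcases h' with h' | h'
    · right
      have e1 : CIsot (𝓡 4) (fun x => ψ (φ x)) (fun x => ψ' (W (φ' x))) :=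
        cc ψ ψ' φ (fun x => W (φ' x)) h' h
      exact ct _ _ _ e1 V2
    · left
      have e1 : CIsot (𝓡 4) (fun x => ψ (φ x)) (fun x => W (ψ' (W (φ' x)))) :=
        cc ψ (fun x => W (ψ' x)) φ (fun x => W (φ' x)) h' h
      have e2 : CIsot (𝓡 4) (fun x => W (ψ' (W (φ' x)))) (fun x => W (W (ψ' (φ' x)))) :=
        cc W W _ _ hWW V2
      have e3 : CIsot (𝓡 4) (fun x => W (W (ψ' (φ' x)))) (fun x => ψ' (φ' x)) :=
        cc (fun x => W (W x)) (fun x => x) (fun x => ψ' (φ' x)) (fun x => ψ' (φ' x)) (W2 hCI hW)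
          (cc ψ' ψ' φ' φ' hψ hφ)
      exact ct _ _ _ e1 (ct _ _ _ e2 e3)

theorem r_inv {φ φ' ψ ψ' : S4 → S4} (h : RW4 W φ ψ) (hψ : CIsot (𝓡 4) ψ ψ)
    (i1 : ∀ x, φ (φ' x) = x) (i3 : ∀ x, ψ (ψ' x) = x) : RW4 W φ' ψ' := by
  obtain ⟨-, cs, cself, ct, cc, cinv, cex, -⟩ := hCI _ _ (𝓡 4) S4
  have hWW := FIN4.WW hCI hW
  have hψ' : CIsot (𝓡 4) ψ' ψ' := cinv _ _ _ _ hψ i3 i3
  rcases h with h | h
  · exact Or.inl (cinv _ _ _ _ h i1 i3)
  · right
    obtain ⟨W', hW', j1, j2⟩ := cex W hWW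
    have e1 : CIsot (𝓡 4) φ' (fun x => ψ' (W' x)) :=
      cinv φ (fun x => W (ψ x)) φ' (fun x => ψ' (W' x)) h i1 (fun x => by rw [i3, j1])
    have e2 : CIsot (𝓡 4) (fun x => W (W (W' x))) W' :=
      cc (fun x => W (W x)) (fun x => x) W' W' (W2 hCI hW) hW'
    have e3 : (fun x => W (W (W' x))) = W := by
      funext x
      rw [j1]
    rw [e3] at e2
    have e4 : CIsot (𝓡 4) (fun x => ψ' (W' x)) (fun x => ψ' (W x)) := cc _ _ _ _ hψ' (cs _ _ e2)
    exact ct _ _ _ e1 (ct _ _ _ e4 (Wcomm hCI hW hψ'))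

omit hW in
theorem evD_self4 {n : ℕ} {φ φ' : Fin n → S4 → S4}
    (h : ∀ i, CIsot (𝓡 4) (φ i) (φ i)) (h' : ∀ i, CIsot (𝓡 4) (φ' i) (φ' i)) :
    ∀ l, CIsot (𝓡 4) (evD φ φ' l) (evD φ φ' l) :=
  RELS.evD_isot hCI h h'

theorem evD_rw4 {n : ℕ} {φ φ' ψ ψ' : Fin n → S4 → S4}
    (hψ : ∀ i, CIsot (𝓡 4) (ψ i) (ψ i)) (hψ' : ∀ i, CIsot (𝓡 4) (ψ' i) (ψ' i))
    (h : ∀ i, RW4 W (φ i) (ψ i)) (h' : ∀ i, RW4 W (φ' i) (ψ' i)) :
    ∀ l, RW4 W (evD φ φ' l) (evD ψ ψ' l) := by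
  obtain ⟨cid, -, -, -, cc, -⟩ := hCI _ _ (𝓡 4) S4
  intro l
  induction l with
  | nil => exact Or.inl cid
  | cons p l ih =>
    obtain ⟨i, b⟩ := p
    rcases b with _ | _
    · exact r_comp (φ := φ' i) (φ' := ψ' i) (ψ := evD φ φ' l) (ψ' := evD ψ ψ' l) hCI hW
        (hψ' i) (evD_self4 hCI hψ hψ' l) (h' i) ih
    · exact r_comp (φ := φ i) (φ' := ψ i) (ψ := evD φ φ' l) (ψ' := evD ψ ψ' l) hCI hW
        (hψ i) (evD_self4 hCI hψ hψ' l) (h i) ih

end

/-- the relation theorem for germs is a special case -/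
theorem rels_of_rels6 (hT2 : StT2) (hCI : StCI) {W : S4 → S4} (hW : IsW4 W) (h : RelS6 W) :
    RelS W := by
  intro n B Bi φ φ' U A y₀ z l hB hBi hU hsU hE hT hi1 hi2 hA hy hz hprod
  obtain ⟨cid, cs, cself, ct, cc, cinv, cex, cconj, ciso, -⟩ := hCI _ _ (𝓡 4) S4
  have tself := (hT2 _ _ (𝓡 4) S4).2.2.2.2.2.2
  obtain ⟨ψ, ψ', j1, j2, hs, hG, -, hw⟩ := h n B univ ∅ Bi φ U A y₀ z l hB hU hsU
    (fun i _ => ⟨hBi i, hE i, hT i⟩) (fun i => cuff_lip (Bi i) (hBi i)) (fun x hx => hx.elim) hA hy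
    hz hprod
  have hφs : ∀ i, CIsot (𝓡 4) (φ i) (φ i) := fun i => tself _ _ (hT i)
  have hψ's : ∀ i, CIsot (𝓡 4) (ψ' i) (ψ' i) := fun i => cinv _ _ _ _ (hs i) (j1 i) (j1 i)
  have r1 : ∀ i, RW4 W (φ i) (ψ i) := fun i => r_symm hCI hW (hφs i) (hG i (mem_univ i))
  have r2 : ∀ i, RW4 W (φ' i) (ψ' i) := fun i =>
    r_inv hCI hW (r1 i) (hs i) (hi1 i) (j1 i)
  exact (FIN4.rw4_iff hCI).1 (r_trans hCI hW cid (evD_rw4 hCI hW hs hψ's r1 r2 l) hw)

end RELS6

open RELS6 in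
/-- **RELS6.** -/
theorem m_RELS6 (hREL6 : StREL6) (hREP : StREP) (hWRD : StWRD) (hEVM : StEVM)
    (hW4 : StW4) (hEI : StEI) (hX2c : StX2c) (hR3 : StR3) (hA1 : StA1) (hS4 : StS4)
    (hX1 : StX1) (hX3 : StX3) (hT2 : StT2) (hCI : StCI) : StRelS6 := by
  classical
  intro W hW
  obtain ⟨W', hW', hcW⟩ := w4_exists hW4 hR3 hA1 hCI hW
  suffices hmain : RelS6 W' from ⟨W', hW', hcW, rels_of_rels6 hT2 hCI hW' hmain, hmain⟩
  intro n B Gr P Bi φ U A y₀ z l hB hU hsU hBi hLip hP hA hy hz hprod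
  obtain ⟨cid, cs, cself, ct, cc, cinv, cex, cconj, ciso, -⟩ := hCI _ _ (𝓡 4) S4
  choose f h hzf hhc hh0 hh1 hhoff using hz
  -- the homotopies of spheres
  have hmap : ∀ m ∈ S2, ((1 / 2, (1 / 5 : ℝ) • m) : R4) ∈ coreSphere 0 := fun m hm => by
    rw [coreSphere_eq]
    exact cuff_mem hm
  have hAc : IsCompact A := by
    rw [hA]
    refine (isCompact_sph 1).image_of_continuousOn fun p hp => ?_
    exact (hB.1 p (sph1_sub hp)).contMDiffAt.continuousAt.continuousWithinAt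
  have hbase : sqr (fun _ => 0) = (1, 0) := by
    simp only [sqr]
    ext1
    · simp
    · apply Complex.ext <;> simp
  have hfree : FreeOff A (y₀ : S4) (fun i m => Bi i (1 / 2, (1 / 5 : ℝ) • m))
      (fun i z => h i (z.1, (1 / 2, (1 / 5 : ℝ) • z.2))) := by
    refine ⟨fun i => ?_, fun i m hm => hh1 i _ (hmap m hm), fun i => ?_, fun i u hu m hm =>
      hhoff i u hu _ (hmap m hm)⟩
    · refine (hhc i).comp (Continuous.continuousOn (by fun_prop)) ?_
      rintro ⟨u, m⟩ hz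
      exact ⟨hz.1, hmap m hz.2⟩
    · have h1 := hh0 i (fun _ => 0)
      rw [hbase] at h1
      show h i (0, (1 / 2, (1 / 5 : ℝ) • ((1, 0) : R3))) = _
      rw [h1]
      exact congrArg Subtype.val ((f i).2 (fun _ => 0) ⟨0, Or.inl rfl⟩)
  have hprod' : (l.map fun p => if p.2 then cls (f p.1) else (cls (f p.1))⁻¹).prod = 1 := by
    rw [← hprod]
    congr 1
    apply List.map_congr_left
    intro p _
    rw [hzf p.1]
  obtain ⟨N, hN⟩ := hWRD A y₀ n f (fun i m => h i (0, (1 / 2, (1 / 5 : ℝ) • m))) l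
    (fun i t => hh0 i t) hprod'
  obtain ⟨h', N', hfree', hN', hint1, hint2⟩ := hREP n A (y₀ : S4)
    (fun i m => Bi i (1 / 2, (1 / 5 : ℝ) • m)) _ l N hAc hLip hfree hN
  -- compact sets
  have hbox : IsCompact box := isCompact_Icc.prod (isCompact_Icc.prod isCompact_Icc)
  have s1 := spine_smallG hEI hS4 B hB
  have s2 := fun i : Gr => spine_smallG hEI hS4 (Bi i) (hBi i i.2).1
  have s3 : ∀ i, IsCompact (h' i '' (Icc (0 : ℝ) 1 ×ˢ S2)) := fun i =>
    (isCompact_Icc.prod Pool.Agent.Helper18.BI.R.isCompact_S2).image_of_continuousOn (hfree'.1 i)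
  have s4 : IsCompact (N' '' box) := hbox.image_of_continuousOn hN'.1
  have c2 : IsCompact (⋃ i : Gr, Bi i '' SP) := isCompact_iUnion fun i => (s2 i).1
  have c3 : IsCompact (⋃ i, h' i '' (Icc (0 : ℝ) 1 ×ˢ S2)) := isCompact_iUnion s3
  have i2 : interior (⋃ i : Gr, Bi i '' SP) = ∅ :=
    interior_iUnion_fin _ (fun i => (s2 i).1.isClosed) fun i => (s2 i).2
  have i3 : interior (⋃ i, h' i '' (Icc (0 : ℝ) 1 ×ˢ S2)) = ∅ :=
    interior_iUnion_fin _ (fun i => (s3 i).isClosed) hint1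
  obtain ⟨c, hc, hsub⟩ := hX2c (((B '' SP ∪ ⋃ i : Gr, Bi i '' SP) ∪
      ⋃ i, h' i '' (Icc (0 : ℝ) 1 ×ˢ S2)) ∪ N' '' box)
    (((s1.1.union c2).union c3).union s4) (by
      rw [interior_union_isClosed_of_interior_empty ((s1.1.union c2).union c3).isClosed hint2,
        interior_union_isClosed_of_interior_empty (s1.1.union c2).isClosed i3,
        interior_union_isClosed_of_interior_empty s1.1.isClosed i2, s1.2])
  have r1 : B '' SP ⊆ range c :=
    (subset_union_left.trans (subset_union_left.trans subset_union_left)).trans hsub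
  have r2 : ∀ i : Gr, Bi i '' SP ⊆ range c := fun i =>
    ((subset_iUnion (fun i : Gr => Bi i '' SP) i).trans
      (subset_union_right.trans (subset_union_left.trans subset_union_left))).trans hsub
  have r3 : ∀ i, ∀ z ∈ Icc (0 : ℝ) 1 ×ˢ S2, h' i z ∈ range c := fun i z hz =>
    hsub (Or.inl (Or.inr (mem_iUnion.2 ⟨i, mem_image_of_mem _ hz⟩)))
  have r4 : ∀ z ∈ box, N' z ∈ range c := fun z hz => hsub (Or.inr (mem_image_of_mem _ hz))
  -- pulling back
  have hinv : ∀ y ∈ range c, c (Function.invFun c y) = y := fun y hy => Function.invFun_eq hy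
  obtain ⟨z1, -, -, z4, -⟩ := hX1 _ _ (𝓡 4) S4 c hc
  obtain ⟨hF, -⟩ := hX3 _ _ (𝓡 4) S4 c B SP hc hB r1
  choose hFi ψ₀ hψ₀ hψφ using fun i : Gr =>
    transferG hT2 hX1 hX3 c hc (Bi i) (φ i) (hBi i i.2).1 (hBi i i.2).2.2 (r2 i)
  have hoffA : ∀ y ∈ range c, y ∉ A →
      Function.invFun c y ∉ (fun p => Function.invFun c (B p)) '' sph 1 := by
    rintro y hy hyA ⟨q, hq, he⟩
    have he' : Function.invFun c (B q) = Function.invFun c y := he
    have hBq : B q ∈ range c := r1 (mem_image_of_mem _ (sph1_sub hq))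
    have e1 : B q = y := by rw [← hinv _ hBq, he', hinv _ hy]
    exact hyA (hA ▸ ⟨q, hq, e1⟩)
  have hbar : Function.invFun c (y₀ : S4) = Function.invFun c (B (H.bar (1 / 2))) := by
    show _ = Function.invFun c (B (1 / 2, (1 / 2, 0)))
    rw [hy]
  -- the diffeomorphisms of the germs, extended by the identity to the other indices
  let φ₄ : Fin n → R4 → R4 := fun i => if hi : i ∈ Gr then ψ₀ ⟨i, hi⟩ else fun x => x
  have hφ₄ : ∀ i : Gr, φ₄ i = ψ₀ i := fun i => dif_pos i.2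
  obtain ⟨ψ, ψ', j1, j2, hψs, hψG, hψP, hψl⟩ := hREL6 n (fun p => Function.invFun c (B p)) Gr P
    (fun i p => Function.invFun c (Bi i p)) φ₄ U
    (fun i m => Function.invFun c (Bi i (1 / 2, (1 / 5 : ℝ) • m)))
    (fun i z => Function.invFun c (h' i z)) W l (fun z => Function.invFun c (N' z)) hW hF hU hsU
    (fun i hi => ⟨hFi ⟨i, hi⟩, fun p hp => by
      have : B p = Bi i p := (hBi i hi).2.1 hp
      simp only [this], by
        rw [hφ₄ ⟨i, hi⟩]
        exact hψ₀ ⟨i, hi⟩, fun m _ => rfl⟩)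
    (fun x hx m hm => by
      have : Bi x.1 (1 / 2, (1 / 5 : ℝ) • m) = Bi x.2 (1 / 2, (1 / 5 : ℝ) • m) :=
        hP x hx (hmap m hm)
      simp only [this])
    ⟨fun i z hz => (invFun_continuousAt hc (r3 i z hz)).comp_continuousWithinAt (hfree'.1 i z hz),
      fun i m hm => by simp only [hfree'.2.1 i m hm],
      fun i => by
        show Function.invFun c (h' i (0, (1, 0))) = _
        rw [hfree'.2.2.1 i, hbar],
      fun i u hu m hm => hoffA _ (r3 i (u, m) ⟨hu, hm⟩) (hfree'.2.2.2 i u hu m hm)⟩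
    ⟨fun z hz => (invFun_continuousAt hc (r4 z hz)).comp_continuousWithinAt (hN'.1 z hz),
      fun q hq s hs => by
        obtain ⟨a1, a2⟩ := hN'.2.1 q hq s hs
        constructor
        · show Function.invFun c (N' (0, q, s)) = _
          rw [a1, ← hbar]
          exact (hEVM.1 _ _ n (Function.invFun c) (y₀ : S4) (fun i m => h' i (0, m)) l q s).symm
        · show Function.invFun c (N' (1, q, s)) = _
          rw [a2, hbar],
      fun u hu q hq s hs => by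
        obtain ⟨a1, a2⟩ := hN'.2.2 u hu q hq s hs
        refine ⟨hoffA _ (r4 (u, q, s) ⟨hu, hq, hs⟩) a1, fun hbd => ?_⟩
        show Function.invFun c (N' (u, q, s)) = _
        rw [a2 hbd, hbar]⟩
  -- pushing forward
  have hWimp : ∀ χ : R4 → R4, imp c univ (fun x => W (χ x)) =
      fun y => imp c univ W (imp c univ χ y) := fun χ => funext fun y => z4 W χ y
  have hpf : ∀ χ χ' : R4 → R4, CIsot I4 χ' χ' → RU W χ χ' →
      RW4 W' (imp c univ χ) (imp c univ χ') := by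
    rintro χ χ' hχ' (e | e)
    · exact Or.inl (z1 _ _ e)
    · right
      have h1 := z1 _ _ e
      rw [hWimp χ'] at h1
      exact ct _ _ _ h1 (cc _ _ _ _ (hcW c hc) (z1 _ _ hχ'))
  have hid : imp c univ (fun x => x) = fun x => x := Pool.Agent.Helper70.BI.W4.imp_id
  have hid4 : CIsot I4 (fun x : R4 => x) (fun x => x) := (hCI _ _ 𝓘(ℝ, R4) R4).1
  refine ⟨fun i => imp c univ (ψ i), fun i => imp c univ (ψ' i), ?_, ?_, ?_, ?_, ?_, ?_⟩
  · intro i x
    show imp c univ (ψ i) (imp c univ (ψ' i) x) = x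
    rw [← z4 (ψ i) (ψ' i) x]
    have : (fun p => ψ i (ψ' i p)) = fun p => p := funext (j1 i)
    rw [this, hid]
  · intro i x
    show imp c univ (ψ' i) (imp c univ (ψ i) x) = x
    rw [← z4 (ψ' i) (ψ i) x]
    have : (fun p => ψ' i (ψ i p)) = fun p => p := funext (j2 i)
    rw [this, hid]
  · exact fun i => z1 _ _ (hψs i)
  · intro i hi
    have h1 := hψG i hi
    rw [hφ₄ ⟨i, hi⟩] at h1
    have h2 := hpf _ _ ((hT2 _ _ 𝓘(ℝ, R4) R4).2.2.2.2.2.2 _ _ (hψ₀ ⟨i, hi⟩)) h1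
    exact r_trans hCI hW' ((hT2 _ _ (𝓡 4) S4).2.2.2.2.2.2 _ _ (hBi i hi).2.2) h2
      (Or.inl (hψφ ⟨i, hi⟩))
  · intro x hx
    exact hpf _ _ (hψs x.2) (hψP x hx)
  · have h1 := hpf _ _ hid4 hψl
    rw [imp_evD hX1 c hc, hid] at h1
    exact h1

end Pool.Agent.Helper18.BI.S5
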