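import Pool.Agent.Helper18.BI.R.M_FIN4
import Pool.Agent.Helper18.BI.S5.StA

/-!
# Project BI, stage 5: arbitrary spheres (part B: the 4-sphere)
-/

set_option autoImplicit false

open scoped Manifold ContDiff Topology ComplexConjugate unitInterval
open Set Pool.Agent.Helper65.Barb Pool.Agent.Helper18.BI
open Pool.Agent.Helper70.BI (I4 IsW)
open Pool.Agent.Helper18.BI.H (IsW4)
open Pool.Agent.Helper70.Fin (Emb coreSphere)
open Pool.Agent.Helper18.FinR (sqr Pi2 cls FreeClass)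
open Pool.Agent.Helper18.BI.R

namespace Pool.Agent.Helper18.BI.S5

/-- The relation theorem in the 4-sphere, for arbitrary spheres; `k i` for `i ∈ G` is a germ with the fixed cuff of
`B`, `(i, j) ∈ P` implies that `k i = k j` on the moved cuff. -/
def RelS6 (W : S4 → S4) : Prop :=
  ∀ (n : ℕ) (B : R4 → S4) (G : Set (Fin n)) (P : Set (Fin n × Fin n)) (k : Fin n → R4 → S4)
    (φ : Fin n → S4 → S4) (U : Set R4) (A : Set S4) (y₀ : {x : S4 // x ∉ A})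
    (z : Fin n → Pi2 A y₀) (l : List (Fin n × Bool)), EmbOn (𝓡 4) B SP → IsOpen U → sph 1 ⊆ U →
    (∀ i ∈ G, EmbOn (𝓡 4) (k i) SP ∧ EqOn B (k i) U ∧ Thin (𝓡 4) (k i) (φ i)) →
    (∀ i, ∃ L : NNReal, LipschitzOnWith L (fun m : R3 => k i (1 / 2, (1 / 5 : ℝ) • m)) S2) →
    (∀ x ∈ P, EqOn (k x.1) (k x.2) (coreSphere 0)) → A = B '' sph 1 →
    (y₀ : S4) = B (1 / 2, (1 / 2, 0)) → (∀ i, FreeClass A y₀ (k i) (z i)) →
    (l.map fun p => if p.2 then z p.1 else (z p.1)⁻¹).prod = 1 →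
    ∃ ψ ψ' : Fin n → S4 → S4, (∀ i x, ψ i (ψ' i x) = x) ∧ (∀ i x, ψ' i (ψ i x) = x) ∧
      (∀ i, CIsot (𝓡 4) (ψ i) (ψ i)) ∧ (∀ i ∈ G, FIN4.RW4 W (ψ i) (φ i)) ∧
      (∀ x ∈ P, FIN4.RW4 W (ψ x.1) (ψ x.2)) ∧ FIN4.RW4 W (evD ψ ψ' l) (fun x => x)

/-- RELS6 (helper18). -/
def StRelS6 : Prop :=
  ∀ W : R4 → R4, IsW W → ∃ W' : S4 → S4, IsW4 W' ∧ IsPush W W' ∧ RelS W' ∧ RelS6 W'

end Pool.Agent.Helper18.BI.S5
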